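import Pool.Agent.Work.MP_f2148a_nt.M56.Defs

/-!
MODULE C/Act (S). Algebra of `Cub.act` (everything is `ext`, `simp only [Cub.act]`, `ring`, or `simp only [Cub.disc, Cub.act]; ring`).

* `act_act`: `(z.act M)(U) = z(MU)`, so acting by `M` and then by `M'` is acting by `M M'`.
* `act_common`: put `g = (p q; r s)`, `g' = (p' q'; r' s')`. Then `z' = (z'.act g').act (s' -q'; -r' p')` (by `act_act`,
  the determinant of `g'` and `act_one`) `= (z.act g).act (s' -q'; -r' p') = z.act (g g'⁻¹)` by `act_act`, and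
  `g g'⁻¹ = (p s' - q r', q p' - p q'; r s' - s r', s p' - r q')`.
* `act_shift`: `w(X + nY, Y)` has coefficients `0, b, c + 2 b n, …` if `w.a = 0`; take `n = -(w.c / (2 b))` (integer division,
  `Int.emod_emod_of_dvd`, `Int.emod_nonneg`, `Int.emod_lt_abs` or `Int.emod_lt_of_pos`): `w.c % (2 b)` lies in
  `[0, |2 b|)`.
-/

namespace Pool.Agent.Work.MP_f2148a_nt.M56.C

open Pool.Agent.Work.MP_f2148a_nt.M56

theorem act_act (z : Cub) (p q r s p' q' r' s' : ℤ) :
    (z.act p q r s).act p' q' r' s' =
      z.act (p * p' + q * r') (p * q' + q * s') (r * p' + s * r') (r * q' + s * s') := by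
  ext <;> simp only [Cub.act] <;> ring

theorem act_one (z : Cub) : z.act 1 0 0 1 = z := by
  ext <;> simp only [Cub.act] <;> ring

theorem disc_act (z : Cub) (p q r s : ℤ) :
    (z.act p q r s).disc = (p * s - q * r) ^ 6 * z.disc := by
  simp only [Cub.act, Cub.disc]
  ring

theorem act_common {z z' : Cub} {p q r s p' q' r' s' : ℤ} (h : p * s - q * r = 1)
    (h' : p' * s' - q' * r' = 1) (e : z.act p q r s = z'.act p' q' r' s') :
    (p * s' - q * r') * (s * p' - r * q') - (q * p' - p * q') * (r * s' - s * r') = 1 ∧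
      z' = z.act (p * s' - q * r') (q * p' - p * q') (r * s' - s * r') (s * p' - r * q') := by
  constructor
  · linear_combination (p' * s' - q' * r') * h + h'
  · have h1 : (z'.act p' q' r' s').act s' (-q') (-r') p' = z' := by
      rw [act_act]
      have e1 : p' * s' + q' * -r' = 1 := by linear_combination h'
      have e2 : p' * -q' + q' * p' = 0 := by ring
      have e3 : r' * s' + s' * -r' = 0 := by ring
      have e4 : r' * -q' + s' * p' = 1 := by linear_combination h'
      rw [e1, e2, e3, e4, act_one]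
    rw [← h1, ← e, act_act]
    congr 1 <;> ring

/-- Two forms with a common transform are close if the second coordinate is small. -/
theorem close_of_common {z z' : Cub} {ρ τ τ' : ℝ} {p q r s p' q' r' s' : ℤ}
    (h : p * s - q * r = 1) (h' : p' * s' - q' * r' = 1)
    (e : z.act p q r s = z'.act p' q' r' s')
    (hw : |(r : ℝ) * s' - s * r'| * τ * τ' ≤ ρ) : Close ρ z τ z' τ' := by
  obtain ⟨h1, h2⟩ := act_common h h' e
  refine ⟨_, _, _, _, h1, h2, ?_⟩
  push_cast
  exact hw

/-- Normalisation of a form without `X³`. -/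
theorem act_shift {w : Cub} (ha : w.a = 0) (hb : w.b ≠ 0) :
    ∃ n : ℤ, (w.act 1 n 0 1).a = 0 ∧ (w.act 1 n 0 1).b = w.b ∧ 0 ≤ (w.act 1 n 0 1).c ∧
      (w.act 1 n 0 1).c < 2 * |w.b| := by
  have hm : (2 * w.b : ℤ) ≠ 0 := by
    intro h
    exact hb (by linarith)
  refine ⟨-(w.c / (2 * w.b)), ?_, ?_, ?_⟩
  · simp only [Cub.act, ha]
    ring
  · simp only [Cub.act, ha]
    ring
  · have hc : (w.act 1 (-(w.c / (2 * w.b))) 0 1).c = w.c % (2 * w.b) := by
      simp only [Cub.act, ha]
      have := Int.emod_add_mul_ediv w.c (2 * w.b)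
      linear_combination -this
    rw [hc]
    refine ⟨Int.emod_nonneg _ hm, ?_⟩
    have h2 := Int.emod_lt_abs w.c hm
    rw [abs_mul] at h2
    simpa using h2

end Pool.Agent.Work.MP_f2148a_nt.M56.C
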