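import Mathlib

/-!
MODULE C/Bdd (M). Elementary inequalities between real numbers (Mathlib only).

Write `ε = c₀ ≤ 1/100`. `|l| = 1` means `l = 1` or `l = -1`.

CASE `l = 1`. (A) `a(a²+3b²) = θ - c b³`; (B) `|a² + cab - b²| ≤ 4`; (C) `2b(3a²+b²) = c(a³-3ab²-cb³) - θ³c'`.
* `|a| ≤ 3`: from (B) `b² ≤ a² + |a||b|/100 + 4`. If `|a| > 3`: then `4 ≤ (4/9)a²`, so `|b| ≤ 1.7|a|` (otherwise
  `b² > 2.89 a²` ... precisely `b² - |a||b|/100 ≤ (13/9) a²` fails for `|b| > 1.7|a|`), `|b|³ ≤ 5|a|³`, and by (A)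
  `|a|³ ≤ |a|(a²+3b²) ≤ 2 + |b|³/100 ≤ 2 + |a|³/20`, contradiction with `|a|³ > 27`.
* `|b| ≤ 4`: `b² ≤ 13 + 0.03|b|`.
* by (C): `2|b|³ ≤ 8ε + ε(27+9·16+1) ≤ 180 ε ≤ 1.8`, so `|b| ≤ 1`.
* by (A): `|a|(a²+3) ≥ |a|(a²+3b²) ≥ 0.49`, so `|a| ≥ 1/10`.
* by (C): `2|b|·3a² ≤ 8ε + ε(27+9+1) = 45ε` and `6a² ≥ 0.06`: `|b| ≤ 750 ε`.
CASE `l = -1`. (B) is `a² - cab + b² = -θ²l'`; the left side is `≥ 0`, so `l' = -1` (`θ > 0`) and
  `a² - cab + b² = θ²`, so (`|cab| ≤ (a²+b²)/200`) `0.248 ≤ a²+b² ≤ 4.03`, `|a| ≤ 2.01`, `|b| ≤ 2.01`.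
  (A) `a(a²-3b²) = θ - c b³`: `|a|·|a²-3b²| ≥ 0.5 - 0.01·8.2 ≥ 0.41` and `|a²-3b²| ≤ 3(a²+b²) ≤ 12.1`: `|a| ≥ 1/30`.
  (C) `2b(b²-3a²) = θ³c' - c(a³+3ab²-cb³)`, so `2|b||b-√3a||b+√3a| ≤ ε(8+8.2+24.6+0.1) ≤ 41ε`.
  At most one of `|b|, |b-√3a|, |b+√3a|` is `< 3/10` (if `|b| < 0.3` and `|b∓√3a| < 0.3` then `√3|a| < 0.6`,
  `3a² < 0.36`, `a²+b² < 0.21`; if `|b-√3a|, |b+√3a| < 0.3` then `|b| < 0.3`, `√3|a| < 0.3`), so the product of two of them is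
  `≥ 0.09` and the third one is at most `41ε/0.18 ≤ 228 ε`.
-/

namespace Pool.Agent.Work.MP_f2148a_nt.M56.C

private theorem caseOne {ε θ T c c' a b : ℝ} (h1 : ε ≤ 1 / 100) (hT : |T| ≤ 4)
    (hc : |c| ≤ ε) (hc' : |c'| ≤ ε) (hθ : 1 / 2 ≤ θ) (hθ' : θ ≤ 2)
    (hA : a ^ 3 + 3 * a * b ^ 2 + c * b ^ 3 = θ)
    (hB : a ^ 2 + c * a * b - b ^ 2 = T)
    (hC : c * a ^ 3 - 6 * a ^ 2 * b - 3 * c * a * b ^ 2 - (2 + c ^ 2) * b ^ 3 = θ ^ 3 * c') :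
    1 / 30 ≤ |a| ∧ |a| ≤ 4 ∧ |b| ≤ 2000 * ε := by
  have hε : 0 ≤ ε := (abs_nonneg c).trans hc
  obtain ⟨A, hAe⟩ : ∃ A, A = |a| := ⟨_, rfl⟩
  obtain ⟨B, hBe⟩ : ∃ B, B = |b| := ⟨_, rfl⟩
  have hA0 : 0 ≤ A := hAe ▸ abs_nonneg a
  have hB0 : 0 ≤ B := hBe ▸ abs_nonneg b
  have ha2 : a ^ 2 = A ^ 2 := by rw [hAe, sq_abs]
  have hb2 : b ^ 2 = B ^ 2 := by rw [hBe, sq_abs]
  have hc01 : |c| ≤ 1 / 100 := hc.trans h1
  -- bound on c a b
  have hcab : |c * a * b| ≤ A * B / 100 := by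
    rw [abs_mul, abs_mul, ← hAe, ← hBe]
    have : |c| * A * B ≤ 1 / 100 * A * B := by gcongr
    linarith
  have hcb3 : |c * b ^ 3| ≤ B ^ 3 / 100 := by
    rw [abs_mul, abs_pow, ← hBe]
    have : |c| * B ^ 3 ≤ 1 / 100 * B ^ 3 := by gcongr
    linarith
  have i1 : B ^ 2 ≤ A ^ 2 + A * B / 100 + 4 := by
    have := (abs_le.1 hcab).2
    have := (abs_le.1 hT).1
    nlinarith [hB, ha2, hb2]
  have habsA : A * (A ^ 2 + 3 * B ^ 2) = |θ - c * b ^ 3| := by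
    have h2 : a * (a ^ 2 + 3 * b ^ 2) = θ - c * b ^ 3 := by linear_combination hA
    rw [← h2, abs_mul, ← hAe, ha2, hb2, abs_of_nonneg (by positivity)]
  have i2 : A * (A ^ 2 + 3 * B ^ 2) ≤ 2 + B ^ 3 / 100 := by
    rw [habsA]
    calc |θ - c * b ^ 3| ≤ |θ| + |c * b ^ 3| := abs_sub _ _
      _ ≤ 2 + B ^ 3 / 100 := by
        rw [abs_of_nonneg (by linarith)]
        linarith
  have i3 : 1 / 2 - B ^ 3 / 100 ≤ A * (A ^ 2 + 3 * B ^ 2) := by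
    rw [habsA]
    have := le_abs_self (θ - c * b ^ 3)
    have := (abs_le.1 hcb3).2
    linarith
  -- A ≤ 3
  have hA3 : A ≤ 3 := by
    by_contra hcon
    push Not at hcon
    have h2 : B ≤ 13 / 10 * A := by
      by_contra h3
      push Not at h3
      nlinarith
    have h3 : B ^ 3 ≤ (13 / 10 * A) ^ 3 := pow_le_pow_left₀ hB0 h2 3
    have h4 : A ^ 3 ≤ A * (A ^ 2 + 3 * B ^ 2) := by nlinarith [mul_nonneg hA0 (sq_nonneg B)]
    have h5 : (27 : ℝ) ≤ A ^ 3 := by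
      have := pow_le_pow_left₀ (by norm_num : (0 : ℝ) ≤ 3) hcon.le 3
      linarith
    nlinarith
  have hB4 : B ≤ 4 := by
    by_contra hcon
    push Not at hcon
    nlinarith
  -- consequence of (C)
  have habsC : B * (6 * A ^ 2 + 2 * B ^ 2) ≤ ε * (A ^ 3 + 3 * A * B ^ 2 + 8) := by
    have h2 : b * (6 * a ^ 2 + (2 + c ^ 2) * b ^ 2) = c * a ^ 3 - 3 * c * a * b ^ 2 - θ ^ 3 * c' := by
      linear_combination -hC
    have h3 : B * (6 * A ^ 2 + (2 + c ^ 2) * B ^ 2) = |c * a ^ 3 - 3 * c * a * b ^ 2 - θ ^ 3 * c'| := by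
      rw [← h2, abs_mul, ← hBe, ha2, hb2, abs_of_nonneg (by positivity)]
    have h4 : |c * a ^ 3 - 3 * c * a * b ^ 2 - θ ^ 3 * c'| ≤
        |c * a ^ 3| + |3 * c * a * b ^ 2| + |θ ^ 3 * c'| :=
      (abs_sub _ _).trans (add_le_add_left (abs_sub _ _) _)
    have h5 : |c * a ^ 3| ≤ ε * A ^ 3 := by
      rw [abs_mul, abs_pow, ← hAe]
      gcongr
    have h6 : |3 * c * a * b ^ 2| ≤ ε * (3 * A * B ^ 2) := by
      rw [abs_mul, abs_mul, abs_mul, ← hAe, abs_pow, ← hBe, abs_of_pos (by norm_num : (0 : ℝ) < 3)]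
      have : |c| * (3 * A * B ^ 2) ≤ ε * (3 * A * B ^ 2) := by gcongr
      linarith
    have h7 : |θ ^ 3 * c'| ≤ ε * 8 := by
      rw [abs_mul, abs_of_nonneg (by positivity : (0 : ℝ) ≤ θ ^ 3)]
      have h8 : θ ^ 3 ≤ 8 := by
        have := pow_le_pow_left₀ (by linarith : (0 : ℝ) ≤ θ) hθ' 3
        linarith
      have : θ ^ 3 * |c'| ≤ 8 * ε := by gcongr
      linarith
    have h9 : B * (6 * A ^ 2 + 2 * B ^ 2) ≤ B * (6 * A ^ 2 + (2 + c ^ 2) * B ^ 2) := by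
      have : 0 ≤ B * (c ^ 2 * B ^ 2) := by positivity
      linarith
    linarith
  have hA33 : A ^ 3 ≤ 27 := by
    have := pow_le_pow_left₀ hA0 hA3 3
    linarith
  have hB1 : B ≤ 1 := by
    by_contra hcon
    push Not at hcon
    have h2 : A * B ^ 2 ≤ 3 * 16 := by
      have : B ^ 2 ≤ 16 := by nlinarith
      exact mul_le_mul hA3 this (by positivity) (by norm_num)
    have h3 : ε * (A ^ 3 + 3 * A * B ^ 2 + 8) ≤ 1 / 100 * (27 + 3 * 48 + 8) := by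
      have : A ^ 3 + 3 * A * B ^ 2 + 8 ≤ 27 + 3 * 48 + 8 := by linarith
      calc ε * (A ^ 3 + 3 * A * B ^ 2 + 8) ≤ 1 / 100 * (A ^ 3 + 3 * A * B ^ 2 + 8) := by gcongr
        _ ≤ _ := by linarith
    have h4 : 1 < B ^ 3 := one_lt_pow₀ hcon (by norm_num)
    have h5 : 0 ≤ B * A ^ 2 := by positivity
    nlinarith
  have hB3 : B ^ 3 ≤ 1 := pow_le_one₀ hB0 hB1
  have hB2 : B ^ 2 ≤ 1 := pow_le_one₀ hB0 hB1
  have hA1 : 1 / 10 ≤ A := by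
    by_contra hcon
    push Not at hcon
    have h2 : A * (A ^ 2 + 3 * B ^ 2) ≤ 1 / 10 * ((1 / 10) ^ 2 + 3 * 1) := by
      gcongr
    linarith
  refine ⟨by rw [← hAe]; linarith, by rw [← hAe]; linarith, ?_⟩
  rw [← hBe]
  have h2 : ε * (A ^ 3 + 3 * A * B ^ 2 + 8) ≤ ε * 44 := by
    have h3 : A * B ^ 2 ≤ 3 * 1 := by gcongr
    have : A ^ 3 + 3 * A * B ^ 2 + 8 ≤ 44 := by linarith
    gcongr
  have h3 : 1 / 100 ≤ A ^ 2 := by nlinarith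
  have h4 : B * (6 * (1 / 100)) ≤ B * (6 * A ^ 2 + 2 * B ^ 2) := by
    have : 6 * (1 / 100) ≤ 6 * A ^ 2 + 2 * B ^ 2 := by nlinarith [sq_nonneg B]
    gcongr
  linarith

private theorem caseTwo {ε θ l' c c' a b : ℝ} (h1 : ε ≤ 1 / 100)
    (hl' : |l'| = 1) (hc : |c| ≤ ε) (hc' : |c'| ≤ ε) (hθ : 1 / 2 ≤ θ) (hθ' : θ ≤ 2)
    (hA : a ^ 3 - 3 * a * b ^ 2 + c * b ^ 3 = θ)
    (hB : -a ^ 2 + c * a * b - b ^ 2 = θ ^ 2 * l')
    (hC : c * a ^ 3 - 6 * a ^ 2 * b + 3 * c * a * b ^ 2 - (-2 + c ^ 2) * b ^ 3 = θ ^ 3 * c') :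
    1 / 30 ≤ |a| ∧ |a| ≤ 4 ∧
      (|b| ≤ 2000 * ε ∨ |b - √3 * a| ≤ 2000 * ε ∨ |b + √3 * a| ≤ 2000 * ε) := by
  have hε : 0 ≤ ε := (abs_nonneg c).trans hc
  have hc01 : |c| ≤ 1 / 100 := hc.trans h1
  obtain ⟨A, hAe⟩ : ∃ A, A = |a| := ⟨_, rfl⟩
  obtain ⟨B, hBe⟩ : ∃ B, B = |b| := ⟨_, rfl⟩
  have hA0 : 0 ≤ A := hAe ▸ abs_nonneg a
  have hB0 : 0 ≤ B := hBe ▸ abs_nonneg b
  have ha2 : a ^ 2 = A ^ 2 := by rw [hAe, sq_abs]
  have hb2 : b ^ 2 = B ^ 2 := by rw [hBe, sq_abs]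
  have hcab : |c * a * b| ≤ A * B / 100 := by
    rw [abs_mul, abs_mul, ← hAe, ← hBe]
    have : |c| * A * B ≤ 1 / 100 * A * B := by gcongr
    linarith
  have hAB : A * B / 100 ≤ (A ^ 2 + B ^ 2) / 200 := by nlinarith [sq_nonneg (A - B)]
  have hlm : l' = -1 := by
    rcases eq_or_eq_neg_of_abs_eq hl' with h | h
    · exfalso
      rw [h, mul_one] at hB
      have := (abs_le.1 hcab).2
      nlinarith [sq_nonneg A, sq_nonneg B]
    · exact h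
  have hS : A ^ 2 - c * a * b + B ^ 2 = θ ^ 2 := by
    rw [hlm] at hB
    rw [← ha2, ← hb2]
    linarith
  have hθ2 : θ ^ 2 ≤ 4 := by nlinarith
  have hθ3 : 1 / 4 ≤ θ ^ 2 := by nlinarith
  have hS1 : A ^ 2 + B ^ 2 ≤ 403 / 100 := by
    have := (abs_le.1 hcab).2
    linarith
  have hS2 : 248 / 1000 ≤ A ^ 2 + B ^ 2 := by
    have := (abs_le.1 hcab).1
    linarith
  have hA2 : A ≤ 201 / 100 := by nlinarith [sq_nonneg B]
  have hB2 : B ≤ 201 / 100 := by nlinarith [sq_nonneg A]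
  have hB3 : B ^ 3 ≤ 82 / 10 := by
    have := pow_le_pow_left₀ hB0 hB2 3
    linarith
  have hA3 : A ^ 3 ≤ 82 / 10 := by
    have := pow_le_pow_left₀ hA0 hA2 3
    linarith
  have hcb3 : |c * b ^ 3| ≤ 82 / 1000 := by
    rw [abs_mul, abs_pow, ← hBe]
    have : |c| * B ^ 3 ≤ 1 / 100 * (82 / 10) := by gcongr
    linarith
  have hA30 : 1 / 30 ≤ A := by
    have h2 : A * |a ^ 2 - 3 * b ^ 2| = |θ - c * b ^ 3| := by
      rw [hAe, ← abs_mul]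
      congr 1
      linear_combination hA
    have h3 : |a ^ 2 - 3 * b ^ 2| ≤ 121 / 10 := by
      rw [abs_le]
      constructor
      · rw [ha2, hb2]; nlinarith [sq_nonneg A]
      · rw [ha2, hb2]; nlinarith [sq_nonneg B]
    have h4 : 41 / 100 ≤ |θ - c * b ^ 3| := by
      have := le_abs_self (θ - c * b ^ 3)
      have := (abs_le.1 hcb3).2
      linarith
    by_contra hcon
    push Not at hcon
    have h5 : A * |a ^ 2 - 3 * b ^ 2| ≤ 1 / 30 * (121 / 10) := by gcongr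
    linarith
  refine ⟨by rw [← hAe]; exact hA30, by rw [← hAe]; linarith, ?_⟩
  have h3s : √3 * √3 = 3 := Real.mul_self_sqrt (by norm_num)
  have hprod : 2 * (|b| * |b - √3 * a| * |b + √3 * a|) ≤ 41 * ε := by
    have h2 : 2 * (b * (b - √3 * a) * (b + √3 * a)) =
        θ ^ 3 * c' - c * a ^ 3 - 3 * c * a * b ^ 2 + c ^ 2 * b ^ 3 := by
      linear_combination hC - 2 * a ^ 2 * b * h3s
    have h3 : 2 * (|b| * |b - √3 * a| * |b + √3 * a|) =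
        |θ ^ 3 * c' - c * a ^ 3 - 3 * c * a * b ^ 2 + c ^ 2 * b ^ 3| := by
      rw [← h2, abs_mul, abs_mul, abs_mul, abs_of_pos (by norm_num : (0 : ℝ) < 2)]
    have h4 : |θ ^ 3 * c' - c * a ^ 3 - 3 * c * a * b ^ 2 + c ^ 2 * b ^ 3| ≤
        |θ ^ 3 * c'| + |c * a ^ 3| + |3 * c * a * b ^ 2| + |c ^ 2 * b ^ 3| :=
      (abs_add_le _ _).trans (add_le_add_left ((abs_sub _ _).trans (add_le_add_left (abs_sub _ _) _)) _)
    have h5 : |c * a ^ 3| ≤ ε * (82 / 10) := by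
      rw [abs_mul, abs_pow, ← hAe]
      gcongr
    have h6 : |3 * c * a * b ^ 2| ≤ ε * (3 * (201 / 100) * (403 / 100)) := by
      rw [abs_mul, abs_mul, abs_mul, ← hAe, abs_pow, ← hBe, abs_of_pos (by norm_num : (0 : ℝ) < 3)]
      have hb' : B ^ 2 ≤ 403 / 100 := by nlinarith [sq_nonneg A]
      have : |c| * (3 * A * B ^ 2) ≤ ε * (3 * (201 / 100) * (403 / 100)) := by gcongr
      linarith
    have h7 : |θ ^ 3 * c'| ≤ ε * 8 := by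
      rw [abs_mul, abs_of_nonneg (by positivity : (0 : ℝ) ≤ θ ^ 3)]
      have h8 : θ ^ 3 ≤ 8 := by
        have := pow_le_pow_left₀ (by linarith : (0 : ℝ) ≤ θ) hθ' 3
        linarith
      have : θ ^ 3 * |c'| ≤ 8 * ε := by gcongr
      linarith
    have h8 : |c ^ 2 * b ^ 3| ≤ ε * (82 / 1000) := by
      rw [abs_mul, abs_pow, abs_pow, ← hBe, sq]
      have : |c| * |c| * B ^ 3 ≤ ε * (1 / 100) * (82 / 10) := by gcongr
      linarith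
    rw [h3]
    linarith
  -- two of the three factors are at least 3 / 10
  have hsq : 248 / 1000 ≤ a ^ 2 + b ^ 2 := by rw [ha2, hb2]; exact hS2
  have p1 : ¬ (|b| < 3 / 10 ∧ |b - √3 * a| < 3 / 10) := by
    rintro ⟨h2, h3⟩
    have h4 : |√3 * a| < 6 / 10 := by
      have : √3 * a = b - (b - √3 * a) := by ring
      rw [this]
      exact (abs_sub _ _).trans_lt (by linarith)
    have h5 : (√3 * a) ^ 2 < (6 / 10) ^ 2 := sq_lt_sq' (by linarith [(abs_lt.1 h4).1]) (abs_lt.1 h4).2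
    have h6 : b ^ 2 < (3 / 10) ^ 2 := sq_lt_sq' (by linarith [(abs_lt.1 h2).1]) (abs_lt.1 h2).2
    have h7 : (√3 * a) ^ 2 = 3 * a ^ 2 := by linear_combination a ^ 2 * h3s
    linarith
  have p2 : ¬ (|b| < 3 / 10 ∧ |b + √3 * a| < 3 / 10) := by
    rintro ⟨h2, h3⟩
    have h4 : |√3 * a| < 6 / 10 := by
      have : √3 * a = (b + √3 * a) - b := by ring
      rw [this]
      exact (abs_sub _ _).trans_lt (by linarith)
    have h5 : (√3 * a) ^ 2 < (6 / 10) ^ 2 := sq_lt_sq' (by linarith [(abs_lt.1 h4).1]) (abs_lt.1 h4).2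
    have h6 : b ^ 2 < (3 / 10) ^ 2 := sq_lt_sq' (by linarith [(abs_lt.1 h2).1]) (abs_lt.1 h2).2
    have h7 : (√3 * a) ^ 2 = 3 * a ^ 2 := by linear_combination a ^ 2 * h3s
    linarith
  have p3 : ¬ (|b - √3 * a| < 3 / 10 ∧ |b + √3 * a| < 3 / 10) := by
    rintro ⟨h2, h3⟩
    have h4 : |b| < 3 / 10 := by
      have : b = ((b - √3 * a) + (b + √3 * a)) / 2 := by ring
      rw [this, abs_div, abs_of_pos (by norm_num : (0 : ℝ) < 2)]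
      have := abs_add_le (b - √3 * a) (b + √3 * a)
      linarith
    exact p1 ⟨h4, h2⟩
  by_cases q1 : |b| < 3 / 10
  · left
    have q2 : 3 / 10 ≤ |b - √3 * a| := by
      by_contra h; exact p1 ⟨q1, not_le.1 h⟩
    have q3 : 3 / 10 ≤ |b + √3 * a| := by
      by_contra h; exact p2 ⟨q1, not_le.1 h⟩
    have q4 : |b| * (3 / 10) * (3 / 10) ≤ |b| * |b - √3 * a| * |b + √3 * a| := by gcongr
    linarith
  · push Not at q1
    right
    by_cases q2 : |b - √3 * a| < 3 / 10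
    · left
      have q3 : 3 / 10 ≤ |b + √3 * a| := by
        by_contra h; exact p3 ⟨q2, not_le.1 h⟩
      have q4 : (3 / 10) * |b - √3 * a| * (3 / 10) ≤ |b| * |b - √3 * a| * |b + √3 * a| := by gcongr
      linarith
    · push Not at q2
      right
      have q4 : (3 / 10) * (3 / 10) * |b + √3 * a| ≤ |b| * |b - √3 * a| * |b + √3 * a| := by gcongr
      linarith

theorem bdd {ε θ l l' c c' a b : ℝ} (h1 : ε ≤ 1 / 100) (hl : |l| = 1)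
    (hl' : |l'| = 1) (hc : |c| ≤ ε) (hc' : |c'| ≤ ε) (hθ : 1 / 2 ≤ θ) (hθ' : θ ≤ 2)
    (hA : a ^ 3 + 3 * l * a * b ^ 2 + c * b ^ 3 = θ)
    (hB : l * a ^ 2 + c * a * b - l ^ 2 * b ^ 2 = θ ^ 2 * l')
    (hC : c * a ^ 3 - 6 * l ^ 2 * a ^ 2 * b - 3 * l * c * a * b ^ 2
      - (2 * l ^ 3 + c ^ 2) * b ^ 3 = θ ^ 3 * c') :
    1 / 30 ≤ |a| ∧ |a| ≤ 4 ∧
      (|b| ≤ 2000 * ε ∨ |b - √3 * a| ≤ 2000 * ε ∨ |b + √3 * a| ≤ 2000 * ε) := by
  rcases eq_or_eq_neg_of_abs_eq hl with h | h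
  · subst h
    have hT : |θ ^ 2 * l'| ≤ 4 := by
      rw [abs_mul, hl', mul_one, abs_of_nonneg (sq_nonneg θ)]
      nlinarith
    obtain ⟨h2, h3, h4⟩ := caseOne (a := a) (b := b) (T := θ ^ 2 * l') h1 hT hc hc' hθ hθ'
      (by linear_combination hA) (by linear_combination hB) (by linear_combination hC)
    exact ⟨h2, h3, Or.inl h4⟩
  · subst h
    exact caseTwo h1 hl' hc hc' hθ hθ' (by linear_combination hA) (by linear_combination hB)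
      (by linear_combination hC)

end Pool.Agent.Work.MP_f2148a_nt.M56.C
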