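import Mathlib

/-!
MODULE C/Canon (S-M). A real root of the depressed cubic and the canonical coordinates (Mathlib only).

`exists_root`: `κ ↦ κ³+3lκ+c` is continuous, `≤ 0` at `κ = -(2+3|l|+|c|)` and `≥ 0` at `κ = 2+3|l|+|c|`; intermediate
value theorem (`mem_range_of_exists_le_of_exists_ge` or `intermediate_value_Icc`).

Put `P = κ²+4l`, `S = κ²+l`, `L = a-κb`, `n = κa+(κ²+2l)b`. All identities below are polynomial identities modulo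
`κ³+3lκ+c = 0` (substitute `c = -(κ³+3lκ)` and `ring`).
-/

namespace Pool.Agent.Work.MP_f2148a_nt.M56.C

theorem exists_root (l c : ℝ) : ∃ κ : ℝ, κ ^ 3 + 3 * l * κ + c = 0 := by
  have hc : Continuous (fun κ : ℝ => κ ^ 3 + 3 * l * κ + c) := by fun_prop
  have hl := abs_nonneg l
  have hcc := abs_nonneg c
  have h1 := neg_abs_le l
  have h2 := le_abs_self l
  have h3 := neg_abs_le c
  have h4 := le_abs_self c
  obtain ⟨κ, hκ⟩ := mem_range_of_exists_le_of_exists_ge hc (c := 0)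
    ⟨-(2 + 3 * |l| + |c|), by
      show (-(2 + 3 * |l| + |c|)) ^ 3 + 3 * l * (-(2 + 3 * |l| + |c|)) + c ≤ 0
      have e : 0 ≤ (2 + 3 * |l| + |c|) * ((2 + 3 * |l| + |c|) ^ 2 - 3 * |l| - |c|) := by
        apply mul_nonneg (by positivity)
        nlinarith [mul_nonneg hl hcc, sq_nonneg (3 * |l| + |c|)]
      nlinarith [mul_nonneg (by linarith : 0 ≤ l + |l|) (by positivity : 0 ≤ 2 + 3 * |l| + |c|),
        mul_nonneg hcc (by positivity : 0 ≤ 1 + 3 * |l| + |c|)]⟩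
    ⟨2 + 3 * |l| + |c|, by
      show 0 ≤ (2 + 3 * |l| + |c|) ^ 3 + 3 * l * (2 + 3 * |l| + |c|) + c
      have e : 0 ≤ (2 + 3 * |l| + |c|) * ((2 + 3 * |l| + |c|) ^ 2 - 3 * |l| - |c|) := by
        apply mul_nonneg (by positivity)
        nlinarith [mul_nonneg hl hcc, sq_nonneg (3 * |l| + |c|)]
      nlinarith [mul_nonneg (by linarith : 0 ≤ l + |l|) (by positivity : 0 ≤ 2 + 3 * |l| + |c|),
        mul_nonneg hcc (by positivity : 0 ≤ 1 + 3 * |l| + |c|)]⟩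
  exact ⟨κ, hκ⟩

theorem canon {l c κ : ℝ} (h : κ ^ 3 + 3 * l * κ + c = 0) (a b : ℝ) :
    4 * (κ ^ 2 + l) * (a ^ 3 + 3 * l * a * b ^ 2 + c * b ^ 3) =
      (a - κ * b) * ((κ ^ 2 + 4 * l) * (a - κ * b) ^ 2 + 3 * (κ * a + (κ ^ 2 + 2 * l) * b) ^ 2) ∧
    4 * (l * a ^ 2 + c * a * b - l ^ 2 * b ^ 2) =
      (κ ^ 2 + 4 * l) * (a - κ * b) ^ 2 - (κ * a + (κ ^ 2 + 2 * l) * b) ^ 2 ∧
    4 * (c * a ^ 3 - 6 * l ^ 2 * a ^ 2 * b - 3 * l * c * a * b ^ 2 - (2 * l ^ 3 + c ^ 2) * b ^ 3) =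
      -(κ * a + (κ ^ 2 + 2 * l) * b) *
        (3 * (κ ^ 2 + 4 * l) * (a - κ * b) ^ 2 + (κ * a + (κ ^ 2 + 2 * l) * b) ^ 2) ∧
    4 * l ^ 3 + c ^ 2 = (κ ^ 2 + 4 * l) * (κ ^ 2 + l) ^ 2 := by
  have hc : c = -(κ ^ 3 + 3 * l * κ) := by linarith
  subst hc
  refine ⟨by ring, by ring, by ring, by ring⟩

theorem canon_wedge {l κ : ℝ} (a b a' b' : ℝ) :
    2 * (κ ^ 2 + l) * (a * b' - a' * b) =
      (a - κ * b) * (κ * a' + (κ ^ 2 + 2 * l) * b') - (a' - κ * b') * (κ * a + (κ ^ 2 + 2 * l) * b) := by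
  ring

end Pool.Agent.Work.MP_f2148a_nt.M56.C
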