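import Pool.Agent.Work.MP_f2148a_nt.M56.Defs

/-!
MODULE C/Cell (M). Reduced forms: finite sets of integral cubics with bounded coefficients. `T₀ = 2^n / 2`.

`box_card`: `box A B C E` is the image of a product of four intervals `Icc (-A) A` etc.; the cardinality of `Icc (-A) A` is
`2A+1` (`Int.card_Icc`).
Numerical facts for `D ≥ 1/8`, `T = T₀ ≥ 1/2` (write `k = 400 D`; all in ℝ, `Nat.floor_le`):
  (1) `2 (k T) + 1 ≤ 4 k T`, `2 (k T³) + 1 ≤ 4 k T³`, since `k T ≥ 25`, `k T³ ≥ 50/8 > 1/2`;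
  (2) if `T ≤ 4 k`, then `1 ≤ 4 k / T` and `2 k/T + 1 ≤ 6 k / T`;
  (3) `2 k/T³ + 1`.
`forms_II`: let `𝒦` be the union over `n ≤ n₁` of `{n} × box ⌊k/T³⌋ ⌊k/T⌋ ⌊kT⌋ ⌊kT³⌋`, where `n₁ = ⌊2 + log₂ (8k)⌋ + 1` or simply
`Nat.log 2 ⌊8k⌋₊ + 2`. If `w.disc ≠ 0` then `w.a ≠ 0` or `w.b ≠ 0` (the discriminant of `(0,0,c,d)` is 0), so `1 ≤ k/T³ ≤ 4k/T` or
`1 ≤ k/T`, so `T ≤ 4k`, `2^n ≤ 8k`, `n ≤ Nat.log 2 ⌊8k⌋₊`. Cardinality of one piece: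
`(2k/T³+1)(6k/T)(4kT)(4kT³) = 96 k³ (2k + T³) ≤ 96 k³ (2k + 64 k³) ≤ C D⁶` (`k ≤ 50 · 8 D`, `1 ≤ 8D`). Number of pieces:
`≤ Nat.log 2 ⌊8k⌋₊ + 2 ≤ C (1 + log (2+D))` (`Real.log` of `2^(Nat.log 2 m) ≤ m` for `m ≥ 1`).
`forms_I`: the same with the condition `w.a ≠ 0`: then `1 ≤ k/T³`, so `2k/T³+1 ≤ 3k/T³` and `T³ ≤ k`; one piece has at most
`(3k/T³)(6k/T)(4kT)(4kT³) = 288 k⁴` elements (`T ≤ 4k` follows as above). Take the union over `n`.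
-/

namespace Pool.Agent.Work.MP_f2148a_nt.M56.C

open Pool.Agent.Work.MP_f2148a_nt.M56

/-- forms with coefficients bounded by `A, B, C, E` -/
noncomputable def box (A B C E : ℕ) : Finset Cub :=
  (Finset.Icc (-(A : ℤ)) A ×ˢ Finset.Icc (-(B : ℤ)) B ×ˢ Finset.Icc (-(C : ℤ)) C ×ˢ
    Finset.Icc (-(E : ℤ)) E).image (fun v => (⟨v.1, v.2.1, v.2.2.1, v.2.2.2⟩ : Cub))

theorem box_card (A B C E : ℕ) :
    (box A B C E).card ≤ (2 * A + 1) * (2 * B + 1) * (2 * C + 1) * (2 * E + 1) := by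
  have hI : ∀ n : ℕ, (Finset.Icc (-(n : ℤ)) n).card = 2 * n + 1 := by
    intro n
    rw [Int.card_Icc]
    omega
  unfold box
  refine Finset.card_image_le.trans ?_
  rw [Finset.card_product, Finset.card_product, Finset.card_product, hI, hI, hI, hI]
  apply le_of_eq
  ring

private theorem mem_box {A B C E : ℕ} {w : Cub} (ha : w.a.natAbs ≤ A) (hb : w.b.natAbs ≤ B)
    (hc : w.c.natAbs ≤ C) (hd : w.d.natAbs ≤ E) : w ∈ box A B C E := by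
  unfold box
  rw [Finset.mem_image]
  refine ⟨(w.a, w.b, w.c, w.d), ?_, rfl⟩
  simp only [Finset.mem_product, Finset.mem_Icc]
  omega

private theorem natAbs_le_floor {z : ℤ} {r : ℝ} (h : |(z : ℝ)| ≤ r) : z.natAbs ≤ ⌊r⌋₊ := by
  apply Nat.le_floor
  have : ((z.natAbs : ℕ) : ℝ) = |(z : ℝ)| := by
    rw [Nat.cast_natAbs, Int.cast_abs]
  rw [this]
  exact h

/-- the piece of the level `T` -/
private noncomputable def pc (k T : ℝ) : Finset Cub :=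
  box ⌊k / T ^ 3⌋₊ ⌊k / T⌋₊ ⌊k * T⌋₊ ⌊k * T ^ 3⌋₊

private theorem pc_card {k T : ℝ} (hk : 50 ≤ k) (hT : 1 / 2 ≤ T) (hTk : T ≤ 4 * k) :
    ((pc k T).card : ℝ) ≤ (2 * (k / T ^ 3) + 1) * (6 * k / T) * (4 * (k * T)) * (4 * (k * T ^ 3)) := by
  have hT0 : 0 < T := by linarith
  have hk0 : 0 < k := by linarith
  have h1 : ((pc k T).card : ℝ) ≤ (2 * (⌊k / T ^ 3⌋₊ : ℝ) + 1) * (2 * (⌊k / T⌋₊ : ℝ) + 1)
      * (2 * (⌊k * T⌋₊ : ℝ) + 1) * (2 * (⌊k * T ^ 3⌋₊ : ℝ) + 1) := by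
    have := box_card ⌊k / T ^ 3⌋₊ ⌊k / T⌋₊ ⌊k * T⌋₊ ⌊k * T ^ 3⌋₊
    unfold pc
    exact_mod_cast this
  have f1 := Nat.floor_le (show 0 ≤ k / T ^ 3 by positivity)
  have f2 := Nat.floor_le (show 0 ≤ k / T by positivity)
  have f3 := Nat.floor_le (show 0 ≤ k * T by positivity)
  have f4 := Nat.floor_le (show 0 ≤ k * T ^ 3 by positivity)
  have g1 : 2 * (⌊k / T ^ 3⌋₊ : ℝ) + 1 ≤ 2 * (k / T ^ 3) + 1 := by linarith
  have g2 : 2 * (⌊k / T⌋₊ : ℝ) + 1 ≤ 6 * k / T := by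
    have : 1 ≤ 4 * k / T := by rw [le_div_iff₀ hT0]; linarith
    have e : 6 * k / T = 2 * (k / T) + 4 * k / T := by ring
    rw [e]; linarith
  have g3 : 2 * (⌊k * T⌋₊ : ℝ) + 1 ≤ 4 * (k * T) := by
    have : 25 ≤ k * T := by nlinarith
    linarith
  have g4 : 2 * (⌊k * T ^ 3⌋₊ : ℝ) + 1 ≤ 4 * (k * T ^ 3) := by
    have h3 : (1 / 2 : ℝ) ^ 3 ≤ T ^ 3 := pow_le_pow_left₀ (by norm_num) hT 3
    have : 50 / 8 ≤ k * T ^ 3 := by nlinarith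
    linarith
  refine h1.trans ?_
  have p1 : (0 : ℝ) ≤ 2 * (⌊k / T ^ 3⌋₊ : ℝ) + 1 := by positivity
  have p2 : (0 : ℝ) ≤ 2 * (⌊k / T⌋₊ : ℝ) + 1 := by positivity
  have p3 : (0 : ℝ) ≤ 2 * (⌊k * T⌋₊ : ℝ) + 1 := by positivity
  have p4 : (0 : ℝ) ≤ 2 * (⌊k * T ^ 3⌋₊ : ℝ) + 1 := by positivity
  have q1 : (0 : ℝ) ≤ 2 * (k / T ^ 3) + 1 := by positivity
  have q2 : (0 : ℝ) ≤ 6 * k / T := by positivity
  have q3 : (0 : ℝ) ≤ 4 * (k * T) := by positivity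
  exact mul_le_mul (mul_le_mul (mul_le_mul g1 g2 p2 q1) g3 p3 (mul_nonneg q1 q2)) g4 p4
    (mul_nonneg (mul_nonneg q1 q2) q3)

private theorem pc_card_II {k T : ℝ} (hk : 50 ≤ k) (hT : 1 / 2 ≤ T) (hTk : T ≤ 4 * k) :
    ((pc k T).card : ℝ) ≤ 6240 * k ^ 6 := by
  have hT0 : 0 < T := by linarith
  have hk0 : 0 < k := by linarith
  refine (pc_card hk hT hTk).trans ?_
  have e : (2 * (k / T ^ 3) + 1) * (6 * k / T) * (4 * (k * T)) * (4 * (k * T ^ 3))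
      = 96 * k ^ 3 * (2 * k + T ^ 3) := by
    field_simp
    ring
  rw [e]
  have h1 : T ^ 3 ≤ (4 * k) ^ 3 := pow_le_pow_left₀ hT0.le hTk 3
  have h2 : 2 * k ≤ k ^ 3 := by nlinarith [mul_pos hk0 hk0]
  have h3 : 2 * k + T ^ 3 ≤ 65 * k ^ 3 := by nlinarith
  calc 96 * k ^ 3 * (2 * k + T ^ 3) ≤ 96 * k ^ 3 * (65 * k ^ 3) :=
        mul_le_mul_of_nonneg_left h3 (by positivity)
    _ = 6240 * k ^ 6 := by ring

private theorem pc_card_I {k T : ℝ} (hk : 50 ≤ k) (hT : 1 / 2 ≤ T) (hTk : T ≤ 4 * k)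
    (hT3 : T ^ 3 ≤ k) : ((pc k T).card : ℝ) ≤ 288 * k ^ 4 := by
  have hT0 : 0 < T := by linarith
  have hk0 : 0 < k := by linarith
  refine (pc_card hk hT hTk).trans ?_
  have e : (2 * (k / T ^ 3) + 1) * (6 * k / T) * (4 * (k * T)) * (4 * (k * T ^ 3))
      = 96 * k ^ 3 * (2 * k + T ^ 3) := by
    field_simp
    ring
  rw [e]
  calc 96 * k ^ 3 * (2 * k + T ^ 3) ≤ 96 * k ^ 3 * (3 * k) :=
        mul_le_mul_of_nonneg_left (by linarith) (by positivity)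
    _ = 288 * k ^ 4 := by ring

private theorem half_le (n : ℕ) : (1 / 2 : ℝ) ≤ 2 ^ n / 2 := by
  have : (1 : ℝ) ≤ 2 ^ n := one_le_pow₀ (by norm_num)
  linarith

private theorem log_pos' {D : ℝ} (hD : 1 / 8 ≤ D) : 0 ≤ Real.log (2 + D) :=
  Real.log_nonneg (by linarith)

private theorem pieces {D : ℝ} (hD : 1 / 8 ≤ D) :
    ((Nat.log 2 ⌊8 * (400 * D)⌋₊ + 1 : ℕ) : ℝ) ≤
      (3 + 2 * Real.log 3200) * (1 + Real.log (2 + D)) := by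
  have hL := log_pos' hD
  have hm0 : (1 : ℝ) ≤ 8 * (400 * D) := by linarith
  have hm : ⌊8 * (400 * D)⌋₊ ≠ 0 := by
    have : 1 ≤ ⌊8 * (400 * D)⌋₊ := Nat.le_floor (by exact_mod_cast hm0)
    omega
  have h1 : 2 ^ Nat.log 2 ⌊8 * (400 * D)⌋₊ ≤ ⌊8 * (400 * D)⌋₊ := Nat.pow_log_le_self 2 hm
  have h2 : (2 : ℝ) ^ Nat.log 2 ⌊8 * (400 * D)⌋₊ ≤ 8 * (400 * D) := by
    calc (2 : ℝ) ^ Nat.log 2 ⌊8 * (400 * D)⌋₊ ≤ (⌊8 * (400 * D)⌋₊ : ℝ) := by exact_mod_cast h1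
      _ ≤ 8 * (400 * D) := Nat.floor_le (by linarith)
  have h3 := Real.log_le_log (by positivity) h2
  rw [Real.log_pow] at h3
  have h4 : (1 / 2 : ℝ) ≤ Real.log 2 := by
    have := Real.log_two_gt_d9
    linarith
  have h5 : Real.log (8 * (400 * D)) ≤ Real.log 3200 + Real.log (2 + D) := by
    rw [← Real.log_mul (by norm_num) (by linarith)]
    apply Real.log_le_log (by linarith)
    linarith
  have h6 : (Nat.log 2 ⌊8 * (400 * D)⌋₊ : ℝ) * (1 / 2) ≤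
      (Nat.log 2 ⌊8 * (400 * D)⌋₊ : ℝ) * Real.log 2 :=
    mul_le_mul_of_nonneg_left h4 (by positivity)
  have h7 : 0 ≤ Real.log 3200 := Real.log_nonneg (by norm_num)
  push_cast
  nlinarith [mul_nonneg h7 hL]

private theorem T_le {k : ℝ} (hk : 50 ≤ k) {T : ℝ} (hT : 1 / 2 ≤ T) (h : T ^ 3 ≤ k ∨ T ≤ k) :
    T ≤ 4 * k := by
  rcases h with h | h
  · by_contra hc
    push Not at hc
    have h1 : 1 ≤ T := by linarith
    have h2 : T ≤ T ^ 3 := by nlinarith [mul_nonneg (sub_nonneg.2 h1) (sub_nonneg.2 h1)]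
    linarith
  · linarith

private theorem n_le {D : ℝ} (hD : 1 / 8 ≤ D) {n : ℕ} (h : (2 : ℝ) ^ n / 2 ≤ 4 * (400 * D)) :
    n < Nat.log 2 ⌊8 * (400 * D)⌋₊ + 1 := by
  have h1 : ((2 ^ n : ℕ) : ℝ) ≤ 8 * (400 * D) := by
    push_cast
    linarith
  have h2 : 2 ^ n ≤ ⌊8 * (400 * D)⌋₊ := Nat.le_floor h1
  have h3 : n ≤ Nat.log 2 ⌊8 * (400 * D)⌋₊ := Nat.le_log_of_pow_le (by norm_num) h2
  omega

private theorem le_of_mem {D : ℝ} (hD : 1 / 8 ≤ D) {n : ℕ}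
    (h : n < Nat.log 2 ⌊8 * (400 * D)⌋₊ + 1) : (2 : ℝ) ^ n / 2 ≤ 4 * (400 * D) := by
  have hm0 : (1 : ℝ) ≤ 8 * (400 * D) := by linarith
  have hm : ⌊8 * (400 * D)⌋₊ ≠ 0 := by
    have : 1 ≤ ⌊8 * (400 * D)⌋₊ := Nat.le_floor (by exact_mod_cast hm0)
    omega
  have h1 : 2 ^ Nat.log 2 ⌊8 * (400 * D)⌋₊ ≤ ⌊8 * (400 * D)⌋₊ := Nat.pow_log_le_self 2 hm
  have h2 : 2 ^ n ≤ 2 ^ Nat.log 2 ⌊8 * (400 * D)⌋₊ := Nat.pow_le_pow_right (by norm_num) (by omega)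
  have h3 : (2 : ℝ) ^ n ≤ 8 * (400 * D) := by
    calc (2 : ℝ) ^ n ≤ (⌊8 * (400 * D)⌋₊ : ℝ) := by exact_mod_cast h2.trans h1
      _ ≤ 8 * (400 * D) := Nat.floor_le (by linarith)
  linarith

private theorem one_le_abs {z : ℤ} (h : z ≠ 0) : (1 : ℝ) ≤ |(z : ℝ)| := by
  have : (1 : ℤ) ≤ |z| := Int.one_le_abs h
  exact_mod_cast this

theorem forms_II : ∃ C : ℝ, 0 < C ∧ ∀ D : ℝ, 1 / 8 ≤ D → ∃ 𝒦 : Finset (ℕ × Cub),
    (𝒦.card : ℝ) ≤ C * D ^ 6 * (1 + Real.log (2 + D)) ∧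
    ∀ (n : ℕ) (w : Cub), w.disc ≠ 0 → |(w.a : ℝ)| ≤ 400 * D / (2 ^ n / 2) ^ 3 →
      |(w.b : ℝ)| ≤ 400 * D / (2 ^ n / 2) → |(w.c : ℝ)| ≤ 400 * D * (2 ^ n / 2) →
      |(w.d : ℝ)| ≤ 400 * D * (2 ^ n / 2) ^ 3 → (n, w) ∈ 𝒦 := by
  have h7 : 0 ≤ Real.log 3200 := Real.log_nonneg (by norm_num)
  refine ⟨6240 * 400 ^ 6 * (3 + 2 * Real.log 3200), by positivity, ?_⟩
  intro D hD
  have hk : 50 ≤ 400 * D := by linarith
  refine ⟨(Finset.range (Nat.log 2 ⌊8 * (400 * D)⌋₊ + 1)).biUnion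
    (fun n => (pc (400 * D) (2 ^ n / 2)).image (fun w => (n, w))), ?_, ?_⟩
  · have h1 : ((Finset.range (Nat.log 2 ⌊8 * (400 * D)⌋₊ + 1)).biUnion
        (fun n => (pc (400 * D) (2 ^ n / 2)).image (fun w => (n, w)))).card ≤
        ∑ n ∈ Finset.range (Nat.log 2 ⌊8 * (400 * D)⌋₊ + 1), (pc (400 * D) (2 ^ n / 2)).card :=
      Finset.card_biUnion_le.trans (Finset.sum_le_sum (fun n _ => Finset.card_image_le))
    have h2 : ∀ n ∈ Finset.range (Nat.log 2 ⌊8 * (400 * D)⌋₊ + 1),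
        ((pc (400 * D) (2 ^ n / 2)).card : ℝ) ≤ 6240 * (400 * D) ^ 6 := by
      intro n hn
      exact pc_card_II hk (half_le n) (le_of_mem hD (Finset.mem_range.mp hn))
    have h3 : (∑ n ∈ Finset.range (Nat.log 2 ⌊8 * (400 * D)⌋₊ + 1),
        ((pc (400 * D) (2 ^ n / 2)).card : ℝ)) ≤
        ((Nat.log 2 ⌊8 * (400 * D)⌋₊ + 1 : ℕ) : ℝ) * (6240 * (400 * D) ^ 6) := by
      refine (Finset.sum_le_card_nsmul _ _ _ h2).trans ?_
      rw [Finset.card_range, nsmul_eq_mul]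
    have h4 : ((((Finset.range (Nat.log 2 ⌊8 * (400 * D)⌋₊ + 1)).biUnion
        (fun n => (pc (400 * D) (2 ^ n / 2)).image (fun w => (n, w)))).card : ℕ) : ℝ) ≤
        ∑ n ∈ Finset.range (Nat.log 2 ⌊8 * (400 * D)⌋₊ + 1),
          ((pc (400 * D) (2 ^ n / 2)).card : ℝ) := by exact_mod_cast h1
    refine h4.trans (h3.trans ?_)
    have h5 := mul_le_mul_of_nonneg_right (pieces hD)
      (show (0 : ℝ) ≤ 6240 * (400 * D) ^ 6 by positivity)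
    refine h5.trans (le_of_eq ?_)
    ring
  · intro n w hw ha hb hc hd
    have hT := half_le n
    have hT0 : (0 : ℝ) < 2 ^ n / 2 := by linarith
    have hTk : (2 : ℝ) ^ n / 2 ≤ 4 * (400 * D) := by
      apply T_le hk hT
      by_cases h0 : w.a = 0
      · right
        have hb0 : w.b ≠ 0 := by
          intro hb0
          apply hw
          simp [Cub.disc, h0, hb0]
        have := (one_le_abs hb0).trans hb
        rwa [one_le_div hT0] at this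
      · left
        have := (one_le_abs h0).trans ha
        rwa [one_le_div (by positivity)] at this
    rw [Finset.mem_biUnion]
    refine ⟨n, Finset.mem_range.mpr (n_le hD hTk), ?_⟩
    rw [Finset.mem_image]
    exact ⟨w, mem_box (natAbs_le_floor ha) (natAbs_le_floor hb) (natAbs_le_floor hc)
      (natAbs_le_floor hd), rfl⟩

theorem forms_I : ∃ C : ℝ, 0 < C ∧ ∀ D : ℝ, 1 / 8 ≤ D → ∃ 𝒦 : Finset Cub,
    (𝒦.card : ℝ) ≤ C * D ^ 4 * (1 + Real.log (2 + D)) ∧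
    ∀ (n : ℕ) (w : Cub), w.a ≠ 0 → |(w.a : ℝ)| ≤ 400 * D / (2 ^ n / 2) ^ 3 →
      |(w.b : ℝ)| ≤ 400 * D / (2 ^ n / 2) → |(w.c : ℝ)| ≤ 400 * D * (2 ^ n / 2) →
      |(w.d : ℝ)| ≤ 400 * D * (2 ^ n / 2) ^ 3 → w ∈ 𝒦 := by
  classical
  have h7 : 0 ≤ Real.log 3200 := Real.log_nonneg (by norm_num)
  refine ⟨288 * 400 ^ 4 * (3 + 2 * Real.log 3200), by positivity, ?_⟩
  intro D hD
  have hk : 50 ≤ 400 * D := by linarith
  refine ⟨((Finset.range (Nat.log 2 ⌊8 * (400 * D)⌋₊ + 1)).filter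
    (fun n => ((2 : ℝ) ^ n / 2) ^ 3 ≤ 400 * D)).biUnion
    (fun n => pc (400 * D) (2 ^ n / 2)), ?_, ?_⟩
  · have h1 : (((Finset.range (Nat.log 2 ⌊8 * (400 * D)⌋₊ + 1)).filter
        (fun n => ((2 : ℝ) ^ n / 2) ^ 3 ≤ 400 * D)).biUnion
        (fun n => pc (400 * D) (2 ^ n / 2))).card ≤
        ∑ n ∈ (Finset.range (Nat.log 2 ⌊8 * (400 * D)⌋₊ + 1)).filter
          (fun n => ((2 : ℝ) ^ n / 2) ^ 3 ≤ 400 * D), (pc (400 * D) (2 ^ n / 2)).card :=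
      Finset.card_biUnion_le
    have h2 : ∀ n ∈ (Finset.range (Nat.log 2 ⌊8 * (400 * D)⌋₊ + 1)).filter
          (fun n => ((2 : ℝ) ^ n / 2) ^ 3 ≤ 400 * D),
        ((pc (400 * D) (2 ^ n / 2)).card : ℝ) ≤ 288 * (400 * D) ^ 4 := by
      intro n hn
      have hn' := Finset.mem_filter.mp hn
      exact pc_card_I hk (half_le n) (le_of_mem hD (Finset.mem_range.mp hn'.1)) hn'.2
    have h3 : (∑ n ∈ (Finset.range (Nat.log 2 ⌊8 * (400 * D)⌋₊ + 1)).filter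
          (fun n => ((2 : ℝ) ^ n / 2) ^ 3 ≤ 400 * D),
        ((pc (400 * D) (2 ^ n / 2)).card : ℝ)) ≤
        ((Nat.log 2 ⌊8 * (400 * D)⌋₊ + 1 : ℕ) : ℝ) * (288 * (400 * D) ^ 4) := by
      refine (Finset.sum_le_card_nsmul _ _ _ h2).trans ?_
      rw [nsmul_eq_mul]
      apply mul_le_mul_of_nonneg_right _ (by positivity)
      have := Finset.card_filter_le (Finset.range (Nat.log 2 ⌊8 * (400 * D)⌋₊ + 1))
        (fun n => ((2 : ℝ) ^ n / 2) ^ 3 ≤ 400 * D)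
      rw [Finset.card_range] at this
      exact_mod_cast this
    have h4 : (((((Finset.range (Nat.log 2 ⌊8 * (400 * D)⌋₊ + 1)).filter
        (fun n => ((2 : ℝ) ^ n / 2) ^ 3 ≤ 400 * D)).biUnion
        (fun n => pc (400 * D) (2 ^ n / 2))).card : ℕ) : ℝ) ≤
        ∑ n ∈ (Finset.range (Nat.log 2 ⌊8 * (400 * D)⌋₊ + 1)).filter
          (fun n => ((2 : ℝ) ^ n / 2) ^ 3 ≤ 400 * D),
          ((pc (400 * D) (2 ^ n / 2)).card : ℝ) := by exact_mod_cast h1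
    refine h4.trans (h3.trans ?_)
    have h5 := mul_le_mul_of_nonneg_right (pieces hD)
      (show (0 : ℝ) ≤ 288 * (400 * D) ^ 4 by positivity)
    refine h5.trans (le_of_eq ?_)
    ring
  · intro n w hw ha hb hc hd
    have hT := half_le n
    have hT0 : (0 : ℝ) < 2 ^ n / 2 := by linarith
    have hT3 : ((2 : ℝ) ^ n / 2) ^ 3 ≤ 400 * D := by
      have := (one_le_abs hw).trans ha
      rwa [one_le_div (by positivity)] at this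
    have hTk : (2 : ℝ) ^ n / 2 ≤ 4 * (400 * D) := T_le hk hT (Or.inl hT3)
    rw [Finset.mem_biUnion]
    refine ⟨n, Finset.mem_filter.mpr ⟨Finset.mem_range.mpr (n_le hD hTk), hT3⟩, ?_⟩
    exact mem_box (natAbs_le_floor ha) (natAbs_le_floor hb) (natAbs_le_floor hc)
      (natAbs_le_floor hd)

end Pool.Agent.Work.MP_f2148a_nt.M56.C
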