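import Pool.Agent.Work.MP_f2148a_nt.M56.C.Pack

/-!
MODULE C/Clus (S-M). Packing of plane vectors near three lines.

For each of `L i = b i`, `b i - √3 a i`, `b i + √3 a i`: `a i * L j - a j * L i = a i * b j - a j * b i`. On the subset of `J`
where `|L i| ≤ 2000 ε` put `t i = L i / a i` (`a i ≠ 0`): `|t i| ≤ 60000 ε`, and
`ρ < |a i * L j - a j * L i| = |a i||a j||t j - t i| ≤ 16 |t i - t j|`. `card_sep` with `L = 60000 ε`, `δ = ρ/16`:
at most `1920000 ε/ρ + 2` indices. `J` is the union of the three filters (`Finset.card_union_le`).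
-/

namespace Pool.Agent.Work.MP_f2148a_nt.M56.C

private theorem one_line {ι : Type} (J : Finset ι) (a b : ι → ℝ) {ε ρ : ℝ} (hε : 0 ≤ ε)
    (hρ : 0 < ρ) (κ : ℝ)
    (h : ∀ i ∈ J, 1 / 30 ≤ |a i| ∧ |a i| ≤ 4 ∧ |b i + κ * a i| ≤ 2000 * ε)
    (hs : ∀ i ∈ J, ∀ j ∈ J, i ≠ j → ρ < |a i * b j - a j * b i|) :
    (J.card : ℝ) ≤ 1920000 * (ε / ρ) + 2 := by
  have hn : ∀ i ∈ J, a i ≠ 0 := fun i hi h0 => by
    have h1 := (h i hi).1
    rw [h0, abs_zero] at h1
    norm_num at h1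
  have h1 := card_sep J (fun i => (b i + κ * a i) / a i) (L := 60000 * ε) (δ := ρ / 16)
    (by positivity) (by positivity)
    (fun i hi => by
      obtain ⟨h1, -, h3⟩ := h i hi
      rw [abs_div, div_le_iff₀ (abs_pos.2 (hn i hi))]
      calc |b i + κ * a i| ≤ 2000 * ε := h3
        _ = 60000 * ε * (1 / 30) := by ring
        _ ≤ 60000 * ε * |a i| := mul_le_mul_of_nonneg_left h1 (by positivity))
    (fun i hi j hj hij => by
      have h2 := hs i hi j hj hij
      have hi0 := hn i hi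
      have hj0 := hn j hj
      have h3 : (b i + κ * a i) / a i - (b j + κ * a j) / a j =
          -(a i * b j - a j * b i) / (a i * a j) := by
        field_simp
        ring
      rw [h3, abs_div, abs_neg, abs_mul, le_div_iff₀ (mul_pos (abs_pos.2 hi0) (abs_pos.2 hj0))]
      have h4 : |a i| * |a j| ≤ 4 * 4 :=
        mul_le_mul (h i hi).2.1 (h j hj).2.1 (abs_nonneg _) (by norm_num)
      calc ρ / 16 * (|a i| * |a j|) ≤ ρ / 16 * (4 * 4) :=
            mul_le_mul_of_nonneg_left h4 (by positivity)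
        _ = ρ := by ring
        _ ≤ |a i * b j - a j * b i| := h2.le)
  refine h1.trans (le_of_eq ?_)
  field_simp
  ring

theorem clus {ι : Type} (J : Finset ι) (a b : ι → ℝ) {ε ρ : ℝ} (hε : 0 ≤ ε) (hρ : 0 < ρ)
    (h : ∀ i ∈ J, 1 / 30 ≤ |a i| ∧ |a i| ≤ 4 ∧
      (|b i| ≤ 2000 * ε ∨ |b i - √3 * a i| ≤ 2000 * ε ∨ |b i + √3 * a i| ≤ 2000 * ε))
    (hs : ∀ i ∈ J, ∀ j ∈ J, i ≠ j → ρ < |a i * b j - a j * b i|) :
    (J.card : ℝ) ≤ 6000000 * (1 + ε / ρ) := by
  classical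
  have h1 := one_line (J.filter fun i => |b i| ≤ 2000 * ε) a b hε hρ 0 (fun i hi => by
      obtain ⟨h1, h2⟩ := Finset.mem_filter.1 hi
      obtain ⟨h3, h4, -⟩ := h i h1
      rw [zero_mul, add_zero]
      exact ⟨h3, h4, h2⟩)
    (fun i hi j hj => hs i (Finset.mem_filter.1 hi).1 j (Finset.mem_filter.1 hj).1)
  have h2 := one_line (J.filter fun i => |b i - √3 * a i| ≤ 2000 * ε) a b hε hρ (-√3)
    (fun i hi => by
      obtain ⟨h1, h2⟩ := Finset.mem_filter.1 hi
      obtain ⟨h3, h4, -⟩ := h i h1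
      rw [neg_mul, ← sub_eq_add_neg]
      exact ⟨h3, h4, h2⟩)
    (fun i hi j hj => hs i (Finset.mem_filter.1 hi).1 j (Finset.mem_filter.1 hj).1)
  have h3 := one_line (J.filter fun i => |b i + √3 * a i| ≤ 2000 * ε) a b hε hρ (√3)
    (fun i hi => by
      obtain ⟨h1, h2⟩ := Finset.mem_filter.1 hi
      obtain ⟨h3, h4, -⟩ := h i h1
      exact ⟨h3, h4, h2⟩)
    (fun i hi j hj => hs i (Finset.mem_filter.1 hi).1 j (Finset.mem_filter.1 hj).1)
  have h4 : J.card ≤ (J.filter fun i => |b i| ≤ 2000 * ε).card +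
      (J.filter fun i => |b i - √3 * a i| ≤ 2000 * ε).card +
      (J.filter fun i => |b i + √3 * a i| ≤ 2000 * ε).card := by
    refine le_trans (Finset.card_le_card (t := ((J.filter fun i => |b i| ≤ 2000 * ε) ∪
      (J.filter fun i => |b i - √3 * a i| ≤ 2000 * ε)) ∪
      (J.filter fun i => |b i + √3 * a i| ≤ 2000 * ε)) fun i hi => ?_) ?_
    · rw [Finset.mem_union, Finset.mem_union, Finset.mem_filter, Finset.mem_filter,
        Finset.mem_filter]
      rcases (h i hi).2.2 with h5 | h5 | h5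
      · exact Or.inl (Or.inl ⟨hi, h5⟩)
      · exact Or.inl (Or.inr ⟨hi, h5⟩)
      · exact Or.inr ⟨hi, h5⟩
    · exact (Finset.card_union_le _ _).trans (Nat.add_le_add_right (Finset.card_union_le _ _) _)
  have h5 : (J.card : ℝ) ≤ ((J.filter fun i => |b i| ≤ 2000 * ε).card : ℝ) +
      ((J.filter fun i => |b i - √3 * a i| ≤ 2000 * ε).card : ℝ) +
      ((J.filter fun i => |b i + √3 * a i| ≤ 2000 * ε).card : ℝ) := by exact_mod_cast h4
  have h6 : 0 ≤ ε / ρ := by positivity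
  linarith

end Pool.Agent.Work.MP_f2148a_nt.M56.C
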