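import Pool.Agent.Work.MP_f2148a_nt.M56.Defs

/-!
MODULE C/Cov (M). The cubic, its Hessian and its cubic covariant at the vector `(p,r)`, in the frame of `z`.

Put `P = p+ωr` (so `a = P τ'/τ`, `b = r τ τ'`).
(A) `z'.a = z(p,r)` (definition of `act`), `z'.a = Δ'/τ'³`, and `z(p,r) = Δ(ξ³+3lξυ²+cυ³)` at `ξ = P/τ`, `υ = τ r` by `Dep z`.
(B) For every cubic `(A,B,C,E)` put `Hs = (B²-3AC)X²+(BC-9AE)XY+(C²-3BE)Y²`. Identity (ring, in ℤ or ℝ):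
  `z'.b² - 3 z'.a z'.c = (ps-qr)² Hs(z)(p,r)`. By `Dep z'`: `z'.b² - 3 z'.a z'.c = -9 Δ'² l'/τ'²`; by `Dep z`:
  `Hs(z)(p,r) = -9 Δ² (lξ²+cξυ-l²υ²)` at `ξ = P/τ`, `υ = τ r`.
(C) `27 z'.a² z'.d - 9 z'.a z'.b z'.c + 2 z'.b³ = (ps-qr)³ Qc(z)(p,r)` with
  `Qc = (27A²E-9ABC+2B³)X³ + 3(9ABE-6AC²+B²C)X²Y - 3(9ACE-6B²E+BC²)XY² - (27AE²-9BCE+2C³)Y³`
  (check the identity with `ring`; it is the classical covariant of degree 3 and order 3). By `Dep z'` the left side is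
  `27 Δ'³ c'/τ'³`; by `Dep z` the value `Qc(z)(p,r)` is `27 Δ³ (cξ³-6l²ξ²υ-3lcξυ²-(2l³+c²)υ³)` at `ξ = P/τ`, `υ = τ r`.
In each case multiply by the power of `τ'` (`field_simp`, `ring` or `linear_combination`).
-/

namespace Pool.Agent.Work.MP_f2148a_nt.M56.C

open Pool.Agent.Work.MP_f2148a_nt.M56

private theorem hess_id (A B C E p q r s : ℝ) :
    (3 * A * p ^ 2 * q + B * (2 * p * q * r + p ^ 2 * s) + C * (q * r ^ 2 + 2 * p * r * s)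
        + 3 * E * r ^ 2 * s) ^ 2
      - 3 * (A * p ^ 3 + B * p ^ 2 * r + C * p * r ^ 2 + E * r ^ 3)
        * (3 * A * p * q ^ 2 + B * (q ^ 2 * r + 2 * p * q * s)
          + C * (2 * q * r * s + p * s ^ 2) + 3 * E * r * s ^ 2) =
      (p * s - q * r) ^ 2 * ((B ^ 2 - 3 * A * C) * p ^ 2 + (B * C - 9 * A * E) * p * r
        + (C ^ 2 - 3 * B * E) * r ^ 2) := by
  ring

private theorem cub_id (A B C E p q r s : ℝ) :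
    27 * (A * p ^ 3 + B * p ^ 2 * r + C * p * r ^ 2 + E * r ^ 3) ^ 2
        * (A * q ^ 3 + B * q ^ 2 * s + C * q * s ^ 2 + E * s ^ 3)
      - 9 * (A * p ^ 3 + B * p ^ 2 * r + C * p * r ^ 2 + E * r ^ 3)
        * (3 * A * p ^ 2 * q + B * (2 * p * q * r + p ^ 2 * s) + C * (q * r ^ 2 + 2 * p * r * s)
          + 3 * E * r ^ 2 * s)
        * (3 * A * p * q ^ 2 + B * (q ^ 2 * r + 2 * p * q * s)
          + C * (2 * q * r * s + p * s ^ 2) + 3 * E * r * s ^ 2)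
      + 2 * (3 * A * p ^ 2 * q + B * (2 * p * q * r + p ^ 2 * s) + C * (q * r ^ 2 + 2 * p * r * s)
          + 3 * E * r ^ 2 * s) ^ 3 =
      (p * s - q * r) ^ 3 * ((27 * A ^ 2 * E - 9 * A * B * C + 2 * B ^ 3) * p ^ 3
        + 3 * (9 * A * B * E - 6 * A * C ^ 2 + B ^ 2 * C) * p ^ 2 * r
        - 3 * (9 * A * C * E - 6 * B ^ 2 * E + B * C ^ 2) * p * r ^ 2
        - (27 * A * E ^ 2 - 9 * B * C * E + 2 * C ^ 3) * r ^ 3) := by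
  ring

theorem cov {z z' : Cub} {ω τ Δ l c ω' τ' Δ' l' c' : ℝ} (hτ : 0 < τ) (hτ' : 0 < τ')
    (h : Dep z ω τ Δ l c) (h' : Dep z' ω' τ' Δ' l' c') {p q r s : ℤ} (hd : p * s - q * r = 1)
    (hz : z' = z.act p q r s) {a b : ℝ} (ha : a = ((p : ℝ) + ω * r) * τ' / τ)
    (hb : b = (r : ℝ) * τ * τ') :
    Δ * (a ^ 3 + 3 * l * a * b ^ 2 + c * b ^ 3) = Δ' ∧
    Δ ^ 2 * (l * a ^ 2 + c * a * b - l ^ 2 * b ^ 2) = Δ' ^ 2 * l' ∧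
    Δ ^ 3 * (c * a ^ 3 - 6 * l ^ 2 * a ^ 2 * b - 3 * l * c * a * b ^ 2
      - (2 * l ^ 3 + c ^ 2) * b ^ 3) = Δ' ^ 3 * c' := by
  have hd' : (p : ℝ) * s - q * r = 1 := by exact_mod_cast hd
  have hne : τ ≠ 0 := hτ.ne'
  have hne' : τ' ≠ 0 := hτ'.ne'
  obtain ⟨h1, h2, h3, h4⟩ := h
  obtain ⟨k1, k2, k3, k4⟩ := h'
  have za : (z'.a : ℝ) = z.a * p ^ 3 + z.b * p ^ 2 * r + z.c * p * r ^ 2 + z.d * r ^ 3 := by
    rw [hz]; simp only [Cub.act]; push_cast; ring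
  have zb : (z'.b : ℝ) = 3 * z.a * p ^ 2 * q + z.b * (2 * p * q * r + p ^ 2 * s)
      + z.c * (q * r ^ 2 + 2 * p * r * s) + 3 * z.d * r ^ 2 * s := by
    rw [hz]; simp only [Cub.act]; push_cast; ring
  have zc : (z'.c : ℝ) = 3 * z.a * p * q ^ 2 + z.b * (q ^ 2 * r + 2 * p * q * s)
      + z.c * (2 * q * r * s + p * s ^ 2) + 3 * z.d * r * s ^ 2 := by
    rw [hz]; simp only [Cub.act]; push_cast; ring
  have zd : (z'.d : ℝ) = z.a * q ^ 3 + z.b * q ^ 2 * s + z.c * q * s ^ 2 + z.d * s ^ 3 := by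
    rw [hz]; simp only [Cub.act]; push_cast; ring
  refine ⟨?_, ?_, ?_⟩
  · have e : Δ' / τ' ^ 3 = (Δ / τ ^ 3) * p ^ 3 + (3 * Δ * ω / τ ^ 3) * p ^ 2 * r
        + (3 * Δ * ω ^ 2 / τ ^ 3 + 3 * Δ * l * τ) * p * r ^ 2
        + (Δ * ω ^ 3 / τ ^ 3 + 3 * Δ * l * ω * τ + Δ * c * τ ^ 3) * r ^ 3 := by
      rw [← k1, za, h1, h2, h3, h4]
    have e2 : Δ' = Δ' / τ' ^ 3 * τ' ^ 3 := by field_simp
    rw [e2, e, ha, hb]
    field_simp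
    ring
  · have e := hess_id z.a z.b z.c z.d p q r s
    rw [← za, ← zb, ← zc, hd', h1, h2, h3, h4, k1, k2, k3] at e
    have e2 : Δ' ^ 2 * l' = -((3 * Δ' * ω' / τ' ^ 3) ^ 2
        - 3 * (Δ' / τ' ^ 3) * (3 * Δ' * ω' ^ 2 / τ' ^ 3 + 3 * Δ' * l' * τ')) * τ' ^ 2 / 9 := by
      field_simp
      ring
    rw [e2, e, ha, hb]
    field_simp
    ring
  · have e := cub_id z.a z.b z.c z.d p q r s
    rw [← za, ← zb, ← zc, ← zd, hd', h1, h2, h3, h4, k1, k2, k3, k4] at e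
    have e2 : Δ' ^ 3 * c' = (27 * (Δ' / τ' ^ 3) ^ 2
          * (Δ' * ω' ^ 3 / τ' ^ 3 + 3 * Δ' * l' * ω' * τ' + Δ' * c' * τ' ^ 3)
        - 9 * (Δ' / τ' ^ 3) * (3 * Δ' * ω' / τ' ^ 3)
          * (3 * Δ' * ω' ^ 2 / τ' ^ 3 + 3 * Δ' * l' * τ')
        + 2 * (3 * Δ' * ω' / τ' ^ 3) ^ 3) * τ' ^ 3 / 27 := by
      field_simp
      ring
    rw [e2, e, ha, hb]
    field_simp
    ring

end Pool.Agent.Work.MP_f2148a_nt.M56.C
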