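import Pool.Agent.Work.MP_f2148a_nt.M56.C.Act
import Pool.Agent.Work.MP_f2148a_nt.M56.C.Cov
import Pool.Agent.Work.MP_f2148a_nt.M56.C.Bdd
import Pool.Agent.Work.MP_f2148a_nt.M56.C.Clus

/-!
MODULE C/Cls (M). One class: all members have a common transform `K`.

`J = ∅` is trivial. Fix `i₀ ∈ J` and choose matrices `g_j = (p_j q_j; r_j s_j)` with `(z j).act g_j = K`. By `act_common`
(with `z = z i₀`, `z' = z j`): `z j = (z i₀).act P_j Q_j R_j S_j`, determinant 1, where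
`P_j = p₀ s_j - q₀ r_j`, `Q_j = q₀ p_j - p₀ q_j`, `R_j = r₀ s_j - s₀ r_j`, `S_j = s₀ p_j - r₀ q_j`.
Put `a_j = (P_j + ω₀ R_j) τ_j / τ₀`, `b_j = R_j τ₀ τ_j`, `θ_j = Δ_j / Δ₀ ∈ [1/2, 2]`. `cov` divided by `Δ₀`, `Δ₀²`, `Δ₀³` gives
the three hypotheses of `bdd` (with `l = l i₀`, `l' = l j`, …), so the first hypothesis of `clus` holds for `a, b`.
Second hypothesis: `a_j b_k - a_k b_j = τ_j τ_k (P_j R_k - P_k R_j) = τ_j τ_k (p₀ s₀ - q₀ r₀)(r_j s_k - s_j r_k)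
= τ_j τ_k (r_j s_k - s_j r_k)`; if its absolute value were `≤ ρ`, `close_of_common` would give `Close ρ (z j) (τ j) (z k) (τ k)`.
-/

namespace Pool.Agent.Work.MP_f2148a_nt.M56.C

open Pool.Agent.Work.MP_f2148a_nt.M56

theorem cls {D ε ρ : ℝ} (hD : 0 < D) (h0 : 0 ≤ ε) (h1 : ε ≤ 1 / 100) (hρ : 0 < ρ) {ι : Type}
    (J : Finset ι) (z : ι → Cub) (ω τ Δ l c : ι → ℝ) (K : Cub)
    (hJ : ∀ i ∈ J, 0 < τ i ∧ Dep (z i) (ω i) (τ i) (Δ i) (l i) (c i) ∧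
        D ≤ Δ i ∧ Δ i ≤ 2 * D ∧ |l i| = 1 ∧ |c i| ≤ ε)
    (hK : ∀ i ∈ J, ∃ p q r s : ℤ, p * s - q * r = 1 ∧ (z i).act p q r s = K)
    (hs : ∀ i ∈ J, ∀ j ∈ J, i ≠ j → ¬ Close ρ (z i) (τ i) (z j) (τ j)) :
    (J.card : ℝ) ≤ 6000000 * (1 + ε / ρ) := by
  classical
  rcases J.eq_empty_or_nonempty with hE | ⟨i₀, hi₀⟩
  · rw [hE]
    have : 0 ≤ ε / ρ := div_nonneg h0 hρ.le
    simp only [Finset.card_empty, Nat.cast_zero]
    linarith
  · choose! p q r s hdet hact using hK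
    have h00 := hJ i₀ hi₀
    obtain ⟨hτ0, hDep0, hΔ0, hΔ0', hl0, hc0⟩ := h00
    have hΔ0p : 0 < Δ i₀ := lt_of_lt_of_le hD hΔ0
    refine clus J (fun j => (((p i₀ * s j - q i₀ * r j : ℤ) : ℝ) +
        ω i₀ * ((r i₀ * s j - s i₀ * r j : ℤ) : ℝ)) * τ j / τ i₀)
      (fun j => ((r i₀ * s j - s i₀ * r j : ℤ) : ℝ) * τ i₀ * τ j) h0 hρ ?_ ?_
    · intro j hj
      obtain ⟨hτj, hDepj, hΔj, hΔj', hlj, hcj⟩ := hJ j hj
      have hcomm : (z i₀).act (p i₀) (q i₀) (r i₀) (s i₀) = (z j).act (p j) (q j) (r j) (s j) := by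
        rw [hact i₀ hi₀, hact j hj]
      obtain ⟨hd, hz⟩ := act_common (hdet i₀ hi₀) (hdet j hj) hcomm
      obtain ⟨hA, hB, hC⟩ := cov hτ0 hτj hDep0 hDepj hd hz rfl rfl
      have hne : Δ i₀ ≠ 0 := hΔ0p.ne'
      refine bdd (θ := Δ j / Δ i₀) (l := l i₀) (l' := l j) (c := c i₀) (c' := c j) h1 hl0 hlj
        hc0 hcj ?_ ?_ ?_ ?_ ?_
      · rw [le_div_iff₀ hΔ0p]
        linarith
      · rw [div_le_iff₀ hΔ0p]
        linarith
      · rw [eq_div_iff hne]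
        exact (mul_comm _ _).trans hA
      · have e2 : (Δ j / Δ i₀) ^ 2 * l j = Δ j ^ 2 * l j / Δ i₀ ^ 2 := by
          rw [div_pow]
          ring
        rw [e2, eq_div_iff (pow_ne_zero 2 hne)]
        exact (mul_comm _ _).trans hB
      · have e3 : (Δ j / Δ i₀) ^ 3 * c j = Δ j ^ 3 * c j / Δ i₀ ^ 3 := by
          rw [div_pow]
          ring
        rw [e3, eq_div_iff (pow_ne_zero 3 hne)]
        exact (mul_comm _ _).trans hC
    · intro j hj k hk hjk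
      obtain ⟨hτj, -⟩ := hJ j hj
      obtain ⟨hτk, -⟩ := hJ k hk
      by_contra hcon
      rw [not_lt] at hcon
      refine hs j hj k hk hjk (close_of_common (hdet j hj) (hdet k hk) ?_ ?_)
      · rw [hact j hj, hact k hk]
      · have hd0 : ((p i₀ : ℤ) : ℝ) * s i₀ - q i₀ * r i₀ = 1 := by exact_mod_cast hdet i₀ hi₀
        refine le_trans (le_of_eq ?_) hcon
        have hτne : τ i₀ ≠ 0 := hτ0.ne'
        have key : (((p i₀ * s j - q i₀ * r j : ℤ) : ℝ) +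
              ω i₀ * ((r i₀ * s j - s i₀ * r j : ℤ) : ℝ)) * τ j / τ i₀ *
            (((r i₀ * s k - s i₀ * r k : ℤ) : ℝ) * τ i₀ * τ k) -
            (((p i₀ * s k - q i₀ * r k : ℤ) : ℝ) +
              ω i₀ * ((r i₀ * s k - s i₀ * r k : ℤ) : ℝ)) * τ k / τ i₀ *
            (((r i₀ * s j - s i₀ * r j : ℤ) : ℝ) * τ i₀ * τ j) =
            ((r j : ℝ) * s k - s j * r k) * τ j * τ k := by
          have h2 : (((p i₀ * s j - q i₀ * r j : ℤ) : ℝ) +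
              ω i₀ * ((r i₀ * s j - s i₀ * r j : ℤ) : ℝ)) * τ j / τ i₀ *
            (((r i₀ * s k - s i₀ * r k : ℤ) : ℝ) * τ i₀ * τ k) -
            (((p i₀ * s k - q i₀ * r k : ℤ) : ℝ) +
              ω i₀ * ((r i₀ * s k - s i₀ * r k : ℤ) : ℝ)) * τ k / τ i₀ *
            (((r i₀ * s j - s i₀ * r j : ℤ) : ℝ) * τ i₀ * τ j) =
            (((p i₀ : ℤ) : ℝ) * s i₀ - q i₀ * r i₀) *
              (((r j : ℝ) * s k - s j * r k) * τ j * τ k) := by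
            push_cast
            field_simp
            ring
          rw [h2, hd0, one_mul]
        rw [key, abs_mul, abs_mul, abs_of_pos hτj, abs_of_pos hτk]

end Pool.Agent.Work.MP_f2148a_nt.M56.C
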