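import Pool.Agent.Work.MP_f2148a_nt.M56.C.Pack
import Pool.Agent.Work.MP_f2148a_nt.M56.C.Canon

/-!
MODULE C/Clus2. Packing of the vectors of one class, general type (`max(|l'|,|c'|) = 1`).

With a real root `κ` and `P, S, L, n` as in `Canon` the three equations become `4Sθ = L(PL²+3n²)`, `4θ²l' = PL²-n²`,
`4θ³c' = -n(3PL²+n²)`, and `2S (a∧b) = L∧n`. If `P > 0` then `|L| ≤ 20|S|`, `|n| ≤ 10`. If `P < 0`, `R = √(-P)`, the forms
`2RL`, `√3n-RL`, `-√3n-RL` have sum 0, and one of them is small.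
-/

namespace Pool.Agent.Work.MP_f2148a_nt.M56.C

private theorem one_cluster {ι : Type} (J : Finset ι) (a b A B : ι → ℝ) {w ρ : ℝ} (hw : w ≠ 0)
    (hρ : 0 < ρ) (hA : ∀ i ∈ J, |A i| ≤ 10 * |w|) (hB : ∀ i ∈ J, |B i| ≤ 10)
    (hAB : ∀ i j, A i * B j - A j * B i = w * (a i * b j - a j * b i))
    (hs : ∀ i ∈ J, ∀ j ∈ J, i ≠ j → ρ < |a i * b j - a j * b i|) :
    (J.card : ℝ) ≤ 400 / ρ + 4 := by
  have h := card_dir J (fun i => A i / w) B (B := 10) (by norm_num) hρ (fun i hi => by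
      rw [abs_div, div_le_iff₀ (abs_pos.2 hw)]
      exact hA i hi) hB (fun i hi j hj hij => by
      have e : A i / w * B j - A j / w * B i = a i * b j - a j * b i := by
        have h1 := hAB i j
        field_simp
        linarith
      rw [e]
      exact hs i hi j hj hij)
  refine h.trans (le_of_eq ?_)
  norm_num

private theorem pos_bounds {P S L n θ l c : ℝ} (hP : 0 < P) (hθ : 1 / 2 ≤ θ) (hθ' : θ ≤ 2)
    (hc : |c| ≤ 1) (hm : |l| = 1 ∨ |c| = 1)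
    (hA : 4 * S * θ = L * (P * L ^ 2 + 3 * n ^ 2))
    (hB : 4 * (θ ^ 2 * l) = P * L ^ 2 - n ^ 2)
    (hC : 4 * (θ ^ 3 * c) = -n * (3 * P * L ^ 2 + n ^ 2)) :
    |L| ≤ 10 * |2 * S| ∧ |n| ≤ 10 := by
  have hp : 0 ≤ P * L ^ 2 := by positivity
  have hn : 0 ≤ n ^ 2 := sq_nonneg n
  obtain ⟨p, hpe⟩ : ∃ p, p = P * L ^ 2 := ⟨_, rfl⟩
  obtain ⟨m, hme⟩ : ∃ m, m = n ^ 2 := ⟨_, rfl⟩
  rw [← hpe] at hp
  rw [← hme] at hn
  have hθ2 : 1 / 4 ≤ θ ^ 2 := by nlinarith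
  have hθ2' : θ ^ 2 ≤ 4 := by nlinarith
  have hC2 : 16 * θ ^ 6 * c ^ 2 = m * (3 * p + m) ^ 2 := by
    have h1 : (4 * (θ ^ 3 * c)) ^ 2 = (-n * (3 * P * L ^ 2 + n ^ 2)) ^ 2 := by rw [hC]
    rw [hpe, hme]
    linear_combination h1
  have hc2 : c ^ 2 ≤ 1 := by
    rw [← sq_abs]
    exact pow_le_one₀ (abs_nonneg _) hc
  have hθ6 : θ ^ 6 ≤ 64 := by
    calc θ ^ 6 = (θ ^ 2) ^ 3 := by ring
      _ ≤ 4 ^ 3 := pow_le_pow_left₀ (by positivity) hθ2' 3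
      _ = 64 := by norm_num
  have hθ6' : 1 / 64 ≤ θ ^ 6 := by
    calc (1 / 64 : ℝ) = (1 / 4) ^ 3 := by norm_num
      _ ≤ (θ ^ 2) ^ 3 := pow_le_pow_left₀ (by norm_num) hθ2 3
      _ = θ ^ 6 := by ring
  -- upper bound for n
  have hm3 : m ^ 3 ≤ 1024 := by
    have h1 : 16 * θ ^ 6 * c ^ 2 ≤ 16 * 64 * 1 := by
      apply mul_le_mul _ hc2 (sq_nonneg c) (by norm_num)
      linarith
    have h2 : m ^ 3 ≤ m * (3 * p + m) ^ 2 := by
      have : m ^ 2 ≤ (3 * p + m) ^ 2 := pow_le_pow_left₀ hn (by linarith) 2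
      calc m ^ 3 = m * m ^ 2 := by ring
        _ ≤ m * (3 * p + m) ^ 2 := mul_le_mul_of_nonneg_left this hn
    linarith
  have hm100 : m ≤ 100 := by
    by_contra h
    push Not at h
    have : (100 : ℝ) ^ 3 < m ^ 3 := pow_lt_pow_left₀ h (by norm_num) (by norm_num)
    linarith
  -- lower bound for T
  have hT : 2 / 5 ≤ p + 3 * m := by
    by_contra hcon
    push Not at hcon
    rcases hm with h1 | h1
    · have h2 : |p - m| = 4 * θ ^ 2 := by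
        rw [hpe, hme, ← hB, abs_mul, abs_mul, h1, abs_of_pos (by norm_num : (0 : ℝ) < 4),
          abs_of_nonneg (sq_nonneg θ)]
        ring
      have h3 : |p - m| ≤ p + m := by
        rw [abs_le]
        constructor <;> linarith
      linarith
    · have h2 : c ^ 2 = 1 := by
        rw [← sq_abs, h1]
        norm_num
      rw [h2] at hC2
      have h3 : m ≤ (p + 3 * m) / 3 := by linarith
      have h4 : 3 * p + m ≤ 3 * (p + 3 * m) := by linarith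
      have h5 : m * (3 * p + m) ^ 2 ≤ (2 / 5 / 3) * (3 * (2 / 5)) ^ 2 := by
        apply mul_le_mul _ _ (sq_nonneg _) (by norm_num)
        · linarith
        · apply pow_le_pow_left₀ (by positivity)
          linarith
      norm_num at h5
      linarith
  constructor
  · have h1 : L ^ 2 * (p + 3 * m) ^ 2 = 16 * S ^ 2 * θ ^ 2 := by
      have : (4 * S * θ) ^ 2 = (L * (P * L ^ 2 + 3 * n ^ 2)) ^ 2 := by rw [hA]
      rw [hpe, hme]
      linear_combination -this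
    have h2 : (2 / 5 : ℝ) ^ 2 ≤ (p + 3 * m) ^ 2 := pow_le_pow_left₀ (by norm_num) hT 2
    have h3 : L ^ 2 * (2 / 5) ^ 2 ≤ 16 * S ^ 2 * 4 := by
      calc L ^ 2 * (2 / 5) ^ 2 ≤ L ^ 2 * (p + 3 * m) ^ 2 :=
            mul_le_mul_of_nonneg_left h2 (sq_nonneg _)
        _ = 16 * S ^ 2 * θ ^ 2 := h1
        _ ≤ 16 * S ^ 2 * 4 := mul_le_mul_of_nonneg_left hθ2' (by positivity)
    have h4 : L ^ 2 ≤ (10 * |2 * S|) ^ 2 := by
      rw [mul_pow, sq_abs]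
      nlinarith
    exact abs_le_of_sq_le_sq h4 (by positivity)
  · have h4 : n ^ 2 ≤ 10 ^ 2 := by
      rw [← hme]
      linarith
    exact abs_le_of_sq_le_sq h4 (by norm_num)

private theorem three_forms {A B C W : ℝ} (hW : 0 < W) (h0 : A + B + C = 0)
    (h1 : 18 / 5 ≤ A ^ 2 + B ^ 2 + C ^ 2) (h2 : |A * B * C| ≤ 3 * W) :
    |A| ≤ 10 * W ∨ |B| ≤ 10 * W ∨ |C| ≤ 10 * W := by
  by_contra hcon
  push Not at hcon
  obtain ⟨ha, hb, hc⟩ := hcon
  have hA : 100 * W ^ 2 < A ^ 2 := by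
    rw [← sq_abs A]
    nlinarith [abs_nonneg A]
  have hB : 100 * W ^ 2 < B ^ 2 := by
    rw [← sq_abs B]
    nlinarith [abs_nonneg B]
  have hC : 100 * W ^ 2 < C ^ 2 := by
    rw [← sq_abs C]
    nlinarith [abs_nonneg C]
  have hp : (A * B * C) ^ 2 ≤ 9 * W ^ 2 := by
    rw [← sq_abs (A * B * C)]
    nlinarith [abs_nonneg (A * B * C)]
  have he : (A * B) ^ 2 + (B * C) ^ 2 + (C * A) ^ 2 = (A ^ 2 + B ^ 2 + C ^ 2) ^ 2 / 4 := by
    have hC' : C = -A - B := by linarith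
    rw [hC']
    ring
  have hs : 3 ≤ (A * B) ^ 2 + (B * C) ^ 2 + (C * A) ^ 2 := by
    rw [he]
    nlinarith
  have hW2 : 0 < W ^ 2 := by positivity
  have k1 : (A * B) ^ 2 * (100 * W ^ 2) ≤ (A * B * C) ^ 2 := by
    have : (A * B * C) ^ 2 = (A * B) ^ 2 * C ^ 2 := by ring
    rw [this]
    exact mul_le_mul_of_nonneg_left hC.le (sq_nonneg _)
  have k2 : (B * C) ^ 2 * (100 * W ^ 2) ≤ (A * B * C) ^ 2 := by
    have : (A * B * C) ^ 2 = (B * C) ^ 2 * A ^ 2 := by ring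
    rw [this]
    exact mul_le_mul_of_nonneg_left hA.le (sq_nonneg _)
  have k3 : (C * A) ^ 2 * (100 * W ^ 2) ≤ (A * B * C) ^ 2 := by
    have : (A * B * C) ^ 2 = (C * A) ^ 2 * B ^ 2 := by ring
    rw [this]
    exact mul_le_mul_of_nonneg_left hB.le (sq_nonneg _)
  have k4 : 3 * (100 * W ^ 2) ≤ ((A * B) ^ 2 + (B * C) ^ 2 + (C * A) ^ 2) * (100 * W ^ 2) :=
    mul_le_mul_of_nonneg_right hs (by positivity)
  nlinarith

private theorem neg_bounds {R S L n θ l c : ℝ} (hR : 0 < R) (hS : S ≠ 0) (hθ : 1 / 2 ≤ θ)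
    (hθ' : θ ≤ 2) (hl : |l| ≤ 1) (hm : |l| = 1 ∨ |c| = 1)
    (hA : 4 * S * θ = L * (-R ^ 2 * L ^ 2 + 3 * n ^ 2))
    (hB : 4 * (θ ^ 2 * l) = -R ^ 2 * L ^ 2 - n ^ 2)
    (hC : 4 * (θ ^ 3 * c) = -n * (3 * (-R ^ 2) * L ^ 2 + n ^ 2)) :
    3 / 5 ≤ R ^ 2 * L ^ 2 + n ^ 2 ∧ R ^ 2 * L ^ 2 + n ^ 2 ≤ 16 ∧
      |2 * R * L * (√3 * n - R * L) * (-(√3 * n) - R * L)| ≤ 3 * (4 * √3 * R * |S|) := by
  have hθ2 : 1 / 4 ≤ θ ^ 2 := by nlinarith
  have hθ2' : θ ^ 2 ≤ 4 := by nlinarith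
  have h3 : (√3 : ℝ) ^ 2 = 3 := Real.sq_sqrt (by norm_num)
  have h3' : (3 / 2 : ℝ) ≤ √3 := by
    apply Real.le_sqrt_of_sq_le
    norm_num
  have hE : R ^ 2 * L ^ 2 + n ^ 2 = 4 * θ ^ 2 * |l| := by
    have h1 : |(-R ^ 2 * L ^ 2 - n ^ 2)| = R ^ 2 * L ^ 2 + n ^ 2 := by
      rw [show -R ^ 2 * L ^ 2 - n ^ 2 = -(R ^ 2 * L ^ 2 + n ^ 2) by ring, abs_neg]
      exact abs_of_nonneg (by positivity)
    rw [← h1, ← hB, abs_mul, abs_mul, abs_of_pos (by norm_num : (0 : ℝ) < 4),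
      abs_of_nonneg (sq_nonneg θ)]
    ring
  have hl3 : 3 / 5 ≤ |l| := by
    rcases hm with h1 | h1
    · rw [h1]
      norm_num
    · by_contra hcon
      push Not at hcon
      have hc2 : c ^ 2 = 1 := by
        rw [← sq_abs, h1]
        norm_num
      have hid : 16 * θ ^ 6 * c ^ 2 + 64 * θ ^ 6 * l ^ 3 =
          -R ^ 2 * (16 * S ^ 2 * θ ^ 2) := by
        have e1 : (4 * (θ ^ 3 * c)) ^ 2 = (-n * (3 * (-R ^ 2) * L ^ 2 + n ^ 2)) ^ 2 := by rw [hC]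
        have e2 : (4 * (θ ^ 2 * l)) ^ 3 = (-R ^ 2 * L ^ 2 - n ^ 2) ^ 3 := by rw [hB]
        have e3 : (4 * S * θ) ^ 2 = (L * (-R ^ 2 * L ^ 2 + 3 * n ^ 2)) ^ 2 := by rw [hA]
        linear_combination e1 + e2 + R ^ 2 * e3
      have hneg : 16 * θ ^ 6 * c ^ 2 + 64 * θ ^ 6 * l ^ 3 < 0 := by
        rw [hid]
        have : 0 < R ^ 2 * (16 * S ^ 2 * θ ^ 2) := by positivity
        linarith
      have hθ6 : 0 < θ ^ 6 := by positivity
      have hl3 : -(3 / 5 : ℝ) ^ 3 ≤ l ^ 3 := by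
        have h5 : |l| ^ 3 ≤ (3 / 5) ^ 3 := pow_le_pow_left₀ (abs_nonneg _) hcon.le 3
        have h6 : |l ^ 3| = |l| ^ 3 := abs_pow _ _
        have h7 := neg_abs_le (l ^ 3)
        linarith
      rw [hc2] at hneg
      have : 0 ≤ θ ^ 6 * (16 + 64 * l ^ 3) := by
        apply mul_nonneg hθ6.le
        norm_num at hl3
        linarith
      nlinarith
  refine ⟨?_, ?_, ?_⟩
  · rw [hE]
    nlinarith
  · rw [hE]
    nlinarith [abs_nonneg l]
  · have h4 : 2 * R * L * (√3 * n - R * L) * (-(√3 * n) - R * L) = -(2 * R * (4 * S * θ)) := by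
      rw [hA]
      linear_combination (-2 * R * L * n ^ 2) * h3
    rw [h4, abs_neg, abs_mul, abs_mul, abs_mul, abs_mul, abs_of_pos (by norm_num : (0 : ℝ) < 2),
      abs_of_pos hR, abs_of_pos (by norm_num : (0 : ℝ) < 4), abs_of_pos (by linarith : 0 < θ)]
    have hS' : 0 < R * |S| := mul_pos hR (abs_pos.2 hS)
    nlinarith

theorem clus2 {ι : Type} (J : Finset ι) (a b θ l' c' : ι → ℝ) {l c ρ : ℝ}
    (hE : 4 * l ^ 3 + c ^ 2 ≠ 0) (hρ : 0 < ρ)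
    (h : ∀ i ∈ J, 1 / 2 ≤ θ i ∧ θ i ≤ 2 ∧ |l' i| ≤ 1 ∧ |c' i| ≤ 1 ∧ (|l' i| = 1 ∨ |c' i| = 1) ∧
      a i ^ 3 + 3 * l * a i * b i ^ 2 + c * b i ^ 3 = θ i ∧
      l * a i ^ 2 + c * a i * b i - l ^ 2 * b i ^ 2 = θ i ^ 2 * l' i ∧
      c * a i ^ 3 - 6 * l ^ 2 * a i ^ 2 * b i - 3 * l * c * a i * b i ^ 2
        - (2 * l ^ 3 + c ^ 2) * b i ^ 3 = θ i ^ 3 * c' i)
    (hs : ∀ i ∈ J, ∀ j ∈ J, i ≠ j → ρ < |a i * b j - a j * b i|) :
    (J.card : ℝ) ≤ 1200 / ρ + 12 := by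
  classical
  obtain ⟨κ, hκ⟩ := exists_root l c
  have hE' : (κ ^ 2 + 4 * l) * (κ ^ 2 + l) ^ 2 ≠ 0 := by
    rw [← (canon hκ 0 0).2.2.2]
    exact hE
  have hP0 : κ ^ 2 + 4 * l ≠ 0 := left_ne_zero_of_mul hE'
  have hS0 : κ ^ 2 + l ≠ 0 := fun h0 => hE' (by rw [h0]; ring)
  have h400 : 0 < 400 / ρ := by positivity
  have h1200 : 1200 / ρ = 3 * (400 / ρ) := by ring
  rcases lt_or_gt_of_ne hP0 with hneg | hpos
  · obtain ⟨R, hR, hRP⟩ : ∃ R : ℝ, 0 < R ∧ κ ^ 2 + 4 * l = -R ^ 2 :=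
      ⟨√(-(κ ^ 2 + 4 * l)), Real.sqrt_pos.2 (by linarith), by
        rw [Real.sq_sqrt (by linarith)]
        ring⟩
    have h3 : (√3 : ℝ) ^ 2 = 3 := Real.sq_sqrt (by norm_num)
    have h30 : (0 : ℝ) < √3 := Real.sqrt_pos.2 (by norm_num)
    have hw : 4 * √3 * R * (κ ^ 2 + l) ≠ 0 := by positivity
    have hwabs : |4 * √3 * R * (κ ^ 2 + l)| = 4 * √3 * R * |κ ^ 2 + l| := by
      rw [abs_mul, abs_of_pos (by positivity : 0 < 4 * √3 * R)]
    have hw1 : -(4 * √3 * R * (κ ^ 2 + l)) ≠ 0 := neg_ne_zero.2 hw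
    have hnb : ∀ i ∈ J, 3 / 5 ≤ R ^ 2 * (a i - κ * b i) ^ 2 + (κ * a i + (κ ^ 2 + 2 * l) * b i) ^ 2 ∧
        R ^ 2 * (a i - κ * b i) ^ 2 + (κ * a i + (κ ^ 2 + 2 * l) * b i) ^ 2 ≤ 16 ∧
        |2 * R * (a i - κ * b i) * (√3 * (κ * a i + (κ ^ 2 + 2 * l) * b i) - R * (a i - κ * b i)) *
          (-(√3 * (κ * a i + (κ ^ 2 + 2 * l) * b i)) - R * (a i - κ * b i))| ≤
            3 * (4 * √3 * R * |κ ^ 2 + l|) := by
      intro i hi
      obtain ⟨g1, g2, g3, g4, g5, g6, g7, g8⟩ := h i hi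
      obtain ⟨e1, e2, e3, -⟩ := canon hκ (a i) (b i)
      rw [g6, hRP] at e1
      rw [g7, hRP] at e2
      rw [g8, hRP] at e3
      exact neg_bounds hR hS0 g1 g2 g3 g5 e1 e2 e3
    have hbig : ∀ i ∈ J, |2 * R * (a i - κ * b i)| ≤ 10 ∧
        |√3 * (κ * a i + (κ ^ 2 + 2 * l) * b i) - R * (a i - κ * b i)| ≤ 10 ∧
        |-(√3 * (κ * a i + (κ ^ 2 + 2 * l) * b i)) - R * (a i - κ * b i)| ≤ 10 := by
      intro i hi
      obtain ⟨-, g2, -⟩ := hnb i hi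
      obtain ⟨L, hL⟩ : ∃ L, L = a i - κ * b i := ⟨_, rfl⟩
      obtain ⟨n, hn⟩ : ∃ n, n = κ * a i + (κ ^ 2 + 2 * l) * b i := ⟨_, rfl⟩
      rw [← hL, ← hn] at g2 ⊢
      have q0 : 0 ≤ R ^ 2 * L ^ 2 := by positivity
      have q1 : 0 ≤ n ^ 2 := sq_nonneg n
      refine ⟨?_, ?_, ?_⟩
      · apply abs_le_of_sq_le_sq _ (by norm_num)
        nlinarith
      · apply abs_le_of_sq_le_sq _ (by norm_num)
        nlinarith [sq_nonneg (√3 * n + R * L)]
      · apply abs_le_of_sq_le_sq _ (by norm_num)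
        nlinarith [sq_nonneg (√3 * n - R * L)]
    have c1 := one_cluster (J.filter fun i => |2 * R * (a i - κ * b i)| ≤
        10 * |4 * √3 * R * (κ ^ 2 + l)|) a b (fun i => 2 * R * (a i - κ * b i))
      (fun i => √3 * (κ * a i + (κ ^ 2 + 2 * l) * b i) - R * (a i - κ * b i)) hw hρ
      (fun i hi => (Finset.mem_filter.1 hi).2) (fun i hi => (hbig i (Finset.mem_filter.1 hi).1).2.1)
      (fun i j => by ring)
      (fun i hi j hj => hs i (Finset.mem_filter.1 hi).1 j (Finset.mem_filter.1 hj).1)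
    have c2 := one_cluster (J.filter fun i =>
        |√3 * (κ * a i + (κ ^ 2 + 2 * l) * b i) - R * (a i - κ * b i)| ≤
        10 * |4 * √3 * R * (κ ^ 2 + l)|) a b
      (fun i => √3 * (κ * a i + (κ ^ 2 + 2 * l) * b i) - R * (a i - κ * b i))
      (fun i => -(√3 * (κ * a i + (κ ^ 2 + 2 * l) * b i)) - R * (a i - κ * b i)) hw hρ
      (fun i hi => (Finset.mem_filter.1 hi).2) (fun i hi => (hbig i (Finset.mem_filter.1 hi).1).2.2)
      (fun i j => by ring)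
      (fun i hi j hj => hs i (Finset.mem_filter.1 hi).1 j (Finset.mem_filter.1 hj).1)
    have c3 := one_cluster (J.filter fun i =>
        |-(√3 * (κ * a i + (κ ^ 2 + 2 * l) * b i)) - R * (a i - κ * b i)| ≤
        10 * |4 * √3 * R * (κ ^ 2 + l)|) a b
      (fun i => -(√3 * (κ * a i + (κ ^ 2 + 2 * l) * b i)) - R * (a i - κ * b i))
      (fun i => 2 * R * (a i - κ * b i)) hw hρ
      (fun i hi => (Finset.mem_filter.1 hi).2) (fun i hi => (hbig i (Finset.mem_filter.1 hi).1).1)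
      (fun i j => by ring)
      (fun i hi j hj => hs i (Finset.mem_filter.1 hi).1 j (Finset.mem_filter.1 hj).1)
    have hcov : J.card ≤ (J.filter fun i => |2 * R * (a i - κ * b i)| ≤
          10 * |4 * √3 * R * (κ ^ 2 + l)|).card +
        (J.filter fun i => |√3 * (κ * a i + (κ ^ 2 + 2 * l) * b i) - R * (a i - κ * b i)| ≤
          10 * |4 * √3 * R * (κ ^ 2 + l)|).card +
        (J.filter fun i => |-(√3 * (κ * a i + (κ ^ 2 + 2 * l) * b i)) - R * (a i - κ * b i)| ≤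
          10 * |4 * √3 * R * (κ ^ 2 + l)|).card := by
      refine le_trans (Finset.card_le_card (t := ((J.filter fun i => |2 * R * (a i - κ * b i)| ≤
          10 * |4 * √3 * R * (κ ^ 2 + l)|) ∪
        (J.filter fun i => |√3 * (κ * a i + (κ ^ 2 + 2 * l) * b i) - R * (a i - κ * b i)| ≤
          10 * |4 * √3 * R * (κ ^ 2 + l)|)) ∪
        (J.filter fun i => |-(√3 * (κ * a i + (κ ^ 2 + 2 * l) * b i)) - R * (a i - κ * b i)| ≤
          10 * |4 * √3 * R * (κ ^ 2 + l)|)) fun i hi => ?_) ?_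
      · rw [Finset.mem_union, Finset.mem_union, Finset.mem_filter, Finset.mem_filter,
          Finset.mem_filter]
        obtain ⟨f1, -, f3⟩ := hnb i hi
        have h5 := three_forms (A := 2 * R * (a i - κ * b i))
          (B := √3 * (κ * a i + (κ ^ 2 + 2 * l) * b i) - R * (a i - κ * b i))
          (C := -(√3 * (κ * a i + (κ ^ 2 + 2 * l) * b i)) - R * (a i - κ * b i))
          (W := 4 * √3 * R * |κ ^ 2 + l|) (by positivity) (by ring) (by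
            obtain ⟨L, hL⟩ : ∃ L, L = a i - κ * b i := ⟨_, rfl⟩
            obtain ⟨n, hn⟩ : ∃ n, n = κ * a i + (κ ^ 2 + 2 * l) * b i := ⟨_, rfl⟩
            rw [← hL, ← hn] at f1 ⊢
            have e : (2 * R * L) ^ 2 + (√3 * n - R * L) ^ 2 + (-(√3 * n) - R * L) ^ 2 =
                6 * (R ^ 2 * L ^ 2 + n ^ 2) := by
              linear_combination (2 * n ^ 2) * h3
            rw [e]
            linarith) f3
        rw [hwabs]
        rcases h5 with h5 | h5 | h5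
        · exact Or.inl (Or.inl ⟨hi, h5⟩)
        · exact Or.inl (Or.inr ⟨hi, h5⟩)
        · exact Or.inr ⟨hi, h5⟩
      · exact (Finset.card_union_le _ _).trans
          (Nat.add_le_add_right (Finset.card_union_le _ _) _)
    have hcov' : (J.card : ℝ) ≤ ((J.filter fun i => |2 * R * (a i - κ * b i)| ≤
          10 * |4 * √3 * R * (κ ^ 2 + l)|).card : ℝ) +
        ((J.filter fun i => |√3 * (κ * a i + (κ ^ 2 + 2 * l) * b i) - R * (a i - κ * b i)| ≤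
          10 * |4 * √3 * R * (κ ^ 2 + l)|).card : ℝ) +
        ((J.filter fun i => |-(√3 * (κ * a i + (κ ^ 2 + 2 * l) * b i)) - R * (a i - κ * b i)| ≤
          10 * |4 * √3 * R * (κ ^ 2 + l)|).card : ℝ) := by
      exact_mod_cast hcov
    linarith
  · have c1 := one_cluster J a b (fun i => a i - κ * b i)
      (fun i => κ * a i + (κ ^ 2 + 2 * l) * b i) (w := 2 * (κ ^ 2 + l))
      (mul_ne_zero two_ne_zero hS0) hρ (fun i hi => by
        obtain ⟨g1, g2, g3, g4, g5, g6, g7, g8⟩ := h i hi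
        obtain ⟨e1, e2, e3, -⟩ := canon hκ (a i) (b i)
        rw [g6] at e1
        rw [g7] at e2
        rw [g8] at e3
        exact (pos_bounds hpos g1 g2 g4 g5 e1 e2 e3).1) (fun i hi => by
        obtain ⟨g1, g2, g3, g4, g5, g6, g7, g8⟩ := h i hi
        obtain ⟨e1, e2, e3, -⟩ := canon hκ (a i) (b i)
        rw [g6] at e1
        rw [g7] at e2
        rw [g8] at e3
        exact (pos_bounds hpos g1 g2 g4 g5 e1 e2 e3).2)
      (fun i j => (canon_wedge (a i) (b i) (a j) (b j)).symm) hs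
    linarith

end Pool.Agent.Work.MP_f2148a_nt.M56.C
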