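import Pool.Agent.Work.MP_f2148a_nt.M56.Defs

/-!
MODULE C/Coef (M). Coefficients of the reduced form.

Put `e = N(p,r) = ((p+ωr)/τ, τr) = (e₁,e₂)`, `f = N(q,s) = (f₁,f₂)`, `ẑ(ξ,υ) = ξ³+3lξυ²+cυ³` with polar form
`T(e,f,g) = e₁f₁g₁ + l(e₁f₂g₂+f₁e₂g₂+g₁e₂f₂) + c e₂f₂g₂`. By `Dep` (substitute the four coefficients of `z`, `field_simp`,
`ring`): `(z.act p q r s)` has the coefficients `Δ T(e,e,e)`, `3Δ T(e,e,f)`, `3Δ T(e,f,f)`, `Δ T(f,f,f)`.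
From `e₁²+e₂² = 1/T²`: `|e₁|, |e₂| ≤ 1/T`; from `f₁²+f₂² ≤ (4/3)T²`: `|f₁|, |f₂| ≤ √(4/3) T ≤ (6/5) T`.
So the absolute values are at most `|Δ|·5/T³`, `3|Δ|·5·(6/5)/T`, `3|Δ|·5·(36/25) T`, `|Δ|·5·(216/125) T³` and `|Δ| ≤ 2D`; all
constants are at most `10, 36, 43.2, 17.28`, so `≤ 44`.
`disc_dep`: substitution and `field_simp`, `ring` (the frame is unimodular: `disc = Δ⁴ disc(ẑ)`, `disc ẑ = -4(3l)³ - 27c²`).
`dir_bound`: `(τ r)² ≤ 1/T²` and `(τ s)² ≤ (4/3)T² ≤ (2T)²`.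
-/

namespace Pool.Agent.Work.MP_f2148a_nt.M56.C

open Pool.Agent.Work.MP_f2148a_nt.M56

private theorem abs3 {x y z A B C : ℝ} (hx : |x| ≤ A) (hy : |y| ≤ B) (hz : |z| ≤ C) :
    |x * y * z| ≤ A * B * C := by
  have hA : 0 ≤ A := (abs_nonneg _).trans hx
  have hB : 0 ≤ B := (abs_nonneg _).trans hy
  rw [abs_mul, abs_mul]
  exact mul_le_mul (mul_le_mul hx hy (abs_nonneg _) hA) hz (abs_nonneg _) (mul_nonneg hA hB)

private theorem pol {u1 u2 v1 v2 w1 w2 l c A B C : ℝ} (hu1 : |u1| ≤ A) (hu2 : |u2| ≤ A)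
    (hv1 : |v1| ≤ B) (hv2 : |v2| ≤ B) (hw1 : |w1| ≤ C) (hw2 : |w2| ≤ C) (hl : |l| ≤ 1)
    (hc : |c| ≤ 1) :
    |u1 * v1 * w1 + l * (u1 * v2 * w2 + v1 * u2 * w2 + w1 * u2 * v2) + c * (u2 * v2 * w2)| ≤
      5 * (A * B * C) := by
  have h1 := abs3 hu1 hv1 hw1
  have h2 := abs3 hu1 hv2 hw2
  have h3 : |v1 * u2 * w2| ≤ A * B * C := by
    have := abs3 hu2 hv1 hw2
    rwa [show v1 * u2 * w2 = u2 * v1 * w2 by ring]
  have h4 : |w1 * u2 * v2| ≤ A * B * C := by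
    have := abs3 hu2 hv2 hw1
    rwa [show w1 * u2 * v2 = u2 * v2 * w1 by ring]
  have h5 := abs3 hu2 hv2 hw2
  have h0 : 0 ≤ A * B * C := (abs_nonneg _).trans h1
  have h6 : |u1 * v2 * w2 + v1 * u2 * w2 + w1 * u2 * v2| ≤ 3 * (A * B * C) := by
    refine (abs_add_le _ _).trans ?_
    have := abs_add_le (u1 * v2 * w2) (v1 * u2 * w2)
    linarith
  have h7 : |l * (u1 * v2 * w2 + v1 * u2 * w2 + w1 * u2 * v2)| ≤ 3 * (A * B * C) := by
    rw [abs_mul]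
    calc |l| * |u1 * v2 * w2 + v1 * u2 * w2 + w1 * u2 * v2|
        ≤ 1 * (3 * (A * B * C)) := mul_le_mul hl h6 (abs_nonneg _) zero_le_one
      _ = 3 * (A * B * C) := one_mul _
  have h8 : |c * (u2 * v2 * w2)| ≤ A * B * C := by
    rw [abs_mul]
    calc |c| * |u2 * v2 * w2| ≤ 1 * (A * B * C) := mul_le_mul hc h5 (abs_nonneg _) zero_le_one
      _ = A * B * C := one_mul _
  refine (abs_add_le _ _).trans ?_
  have := abs_add_le (u1 * v1 * w1) (l * (u1 * v2 * w2 + v1 * u2 * w2 + w1 * u2 * v2))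
  linarith

theorem disc_dep {z : Cub} {ω τ Δ l c : ℝ} (hτ : 0 < τ) (h : Dep z ω τ Δ l c) :
    (z.disc : ℝ) = -27 * Δ ^ 4 * (4 * l ^ 3 + c ^ 2) := by
  obtain ⟨h1, h2, h3, h4⟩ := h
  unfold Cub.disc
  push_cast
  rw [h1, h2, h3, h4]
  field_simp
  ring

theorem coef_bound {z : Cub} {ω τ Δ l c D T : ℝ} (hτ : 0 < τ) (h : Dep z ω τ Δ l c)
    (hΔ : |Δ| ≤ 2 * D) (hl : |l| ≤ 1) (hc : |c| ≤ 1) {p q r s : ℤ} (hT : 0 < T)
    (h1 : (((p : ℝ) + ω * r) / τ) ^ 2 + (τ * r) ^ 2 = 1 / T ^ 2)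
    (h2 : (((q : ℝ) + ω * s) / τ) ^ 2 + (τ * s) ^ 2 ≤ 4 / 3 * T ^ 2) :
    |((z.act p q r s).a : ℝ)| ≤ 44 * D / T ^ 3 ∧ |((z.act p q r s).b : ℝ)| ≤ 44 * D / T ∧
    |((z.act p q r s).c : ℝ)| ≤ 44 * D * T ∧ |((z.act p q r s).d : ℝ)| ≤ 44 * D * T ^ 3 := by
  obtain ⟨ha, hb, hcc, hd⟩ := h
  have hD : 0 ≤ D := by
    have := abs_nonneg Δ
    linarith
  set e1 : ℝ := ((p : ℝ) + ω * r) / τ with he1
  set e2 : ℝ := τ * r with he2
  set f1 : ℝ := ((q : ℝ) + ω * s) / τ with hf1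
  set f2 : ℝ := τ * s with hf2
  have hp : (p : ℝ) = τ * e1 - ω * (e2 / τ) := by
    rw [he1, he2]; field_simp; ring
  have hr : (r : ℝ) = e2 / τ := by
    rw [he2]; field_simp
  have hq : (q : ℝ) = τ * f1 - ω * (f2 / τ) := by
    rw [hf1, hf2]; field_simp; ring
  have hs : (s : ℝ) = f2 / τ := by
    rw [hf2]; field_simp
  have hE : ∀ x : ℝ, x ^ 2 ≤ 1 / T ^ 2 → |x| ≤ 1 / T := by
    intro x hx
    apply abs_le_of_sq_le_sq _ (by positivity)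
    rwa [div_pow, one_pow]
  have hF : ∀ x : ℝ, x ^ 2 ≤ 4 / 3 * T ^ 2 → |x| ≤ 6 / 5 * T := by
    intro x hx
    apply abs_le_of_sq_le_sq _ (by positivity)
    nlinarith [sq_nonneg T]
  have he1' := hE e1 (by nlinarith [sq_nonneg e2])
  have he2' := hE e2 (by nlinarith [sq_nonneg e1])
  have hf1' := hF f1 (by nlinarith [sq_nonneg f2])
  have hf2' := hF f2 (by nlinarith [sq_nonneg f1])
  have hcoef : ∀ (x M : ℝ) (k : ℝ), 0 ≤ k → |x| ≤ 5 * M → |k * Δ * x| ≤ 2 * D * (k * (5 * M)) := by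
    intro x M k hk hx
    rw [abs_mul, abs_mul, abs_of_nonneg hk]
    calc k * |Δ| * |x| ≤ k * (2 * D) * (5 * M) :=
          mul_le_mul (mul_le_mul_of_nonneg_left hΔ hk) hx (abs_nonneg _) (by positivity)
      _ = 2 * D * (k * (5 * M)) := by ring
  refine ⟨?_, ?_, ?_, ?_⟩
  · have key : ((z.act p q r s).a : ℝ) = 1 * Δ * (e1 * e1 * e1 +
        l * (e1 * e2 * e2 + e1 * e2 * e2 + e1 * e2 * e2) + c * (e2 * e2 * e2)) := by
      unfold Cub.act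
      push_cast
      rw [ha, hb, hcc, hd, hp, hr]
      field_simp
      ring
    rw [key]
    refine (hcoef _ _ 1 zero_le_one (pol he1' he2' he1' he2' he1' he2' hl hc)).trans ?_
    have : 2 * D * (1 * (5 * (1 / T * (1 / T) * (1 / T)))) = 10 * D / T ^ 3 := by
      field_simp
      ring
    rw [this]
    gcongr
    norm_num
  · have key : ((z.act p q r s).b : ℝ) = 3 * Δ * (e1 * e1 * f1 +
        l * (e1 * e2 * f2 + e1 * e2 * f2 + f1 * e2 * e2) + c * (e2 * e2 * f2)) := by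
      unfold Cub.act
      push_cast
      rw [ha, hb, hcc, hd, hp, hr, hq, hs]
      field_simp
      ring
    rw [key]
    refine (hcoef _ _ 3 (by norm_num) (pol he1' he2' he1' he2' hf1' hf2' hl hc)).trans ?_
    have : 2 * D * (3 * (5 * (1 / T * (1 / T) * (6 / 5 * T)))) = 36 * D / T := by
      field_simp
      ring
    rw [this]
    gcongr
    norm_num
  · have key : ((z.act p q r s).c : ℝ) = 3 * Δ * (e1 * f1 * f1 +
        l * (e1 * f2 * f2 + f1 * e2 * f2 + f1 * e2 * f2) + c * (e2 * f2 * f2)) := by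
      unfold Cub.act
      push_cast
      rw [ha, hb, hcc, hd, hp, hr, hq, hs]
      field_simp
      ring
    rw [key]
    refine (hcoef _ _ 3 (by norm_num) (pol he1' he2' hf1' hf2' hf1' hf2' hl hc)).trans ?_
    have : 2 * D * (3 * (5 * (1 / T * (6 / 5 * T) * (6 / 5 * T)))) = 216 / 5 * D * T := by
      field_simp
      ring
    rw [this]
    have hDT : 0 ≤ D * T := by positivity
    nlinarith
  · have key : ((z.act p q r s).d : ℝ) = 1 * Δ * (f1 * f1 * f1 +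
        l * (f1 * f2 * f2 + f1 * f2 * f2 + f1 * f2 * f2) + c * (f2 * f2 * f2)) := by
      unfold Cub.act
      push_cast
      rw [ha, hb, hcc, hd, hq, hs]
      field_simp
      ring
    rw [key]
    refine (hcoef _ _ 1 zero_le_one (pol hf1' hf2' hf1' hf2' hf1' hf2' hl hc)).trans ?_
    have hDT : 0 ≤ D * T ^ 3 := by positivity
    nlinarith

theorem dir_bound {ω τ T : ℝ} (hτ : 0 < τ) {p q r s : ℤ} (hT : 0 < T)
    (h1 : (((p : ℝ) + ω * r) / τ) ^ 2 + (τ * r) ^ 2 = 1 / T ^ 2)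
    (h2 : (((q : ℝ) + ω * s) / τ) ^ 2 + (τ * s) ^ 2 ≤ 4 / 3 * T ^ 2) :
    |τ * (r : ℝ)| ≤ 1 / T ∧ |τ * (s : ℝ)| ≤ 2 * T := by
  constructor
  · apply abs_le_of_sq_le_sq _ (by positivity)
    rw [div_pow, one_pow, ← h1]
    nlinarith [sq_nonneg (((p : ℝ) + ω * r) / τ)]
  · apply abs_le_of_sq_le_sq _ (by positivity)
    nlinarith [sq_nonneg (((q : ℝ) + ω * s) / τ), sq_nonneg T]

end Pool.Agent.Work.MP_f2148a_nt.M56.C
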