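import Pool.Agent.Work.MP_f2148a_nt.M56.C.Act
import Pool.Agent.Work.MP_f2148a_nt.M56.C.Cov
import Pool.Agent.Work.MP_f2148a_nt.M56.C.Coef
import Pool.Agent.Work.MP_f2148a_nt.M56.C.Clus2

/-!
MODULE C/Cls2. One class, general type: all members have a common transform `K` and `max (|l|, |c|) = 1`.

As in `Cls`, with `clus2` instead of `bdd` and `clus`; the fixed member has `4l³+c² ≠ 0` by `disc_dep`.
-/

namespace Pool.Agent.Work.MP_f2148a_nt.M56.C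

open Pool.Agent.Work.MP_f2148a_nt.M56

theorem cls2 {D ρ : ℝ} (hD : 0 < D) (hρ : 0 < ρ) {ι : Type}
    (J : Finset ι) (z : ι → Cub) (ω τ Δ l c : ι → ℝ) (K : Cub)
    (hJ : ∀ i ∈ J, (z i).disc ≠ 0 ∧ 0 < τ i ∧ Dep (z i) (ω i) (τ i) (Δ i) (l i) (c i) ∧
        D ≤ Δ i ∧ Δ i ≤ 2 * D ∧ |l i| ≤ 1 ∧ |c i| ≤ 1 ∧ (|l i| = 1 ∨ |c i| = 1))
    (hK : ∀ i ∈ J, ∃ p q r s : ℤ, p * s - q * r = 1 ∧ (z i).act p q r s = K)
    (hs : ∀ i ∈ J, ∀ j ∈ J, i ≠ j → ¬ Close ρ (z i) (τ i) (z j) (τ j)) :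
    (J.card : ℝ) ≤ 1200 / ρ + 12 := by
  classical
  rcases J.eq_empty_or_nonempty with hE | ⟨i₀, hi₀⟩
  · rw [hE]
    have : 0 ≤ 1200 / ρ := div_nonneg (by norm_num) hρ.le
    simp only [Finset.card_empty, Nat.cast_zero]
    linarith
  · choose! p q r s hdet hact using hK
    have h00 := hJ i₀ hi₀
    obtain ⟨hz0, hτ0, hDep0, hΔ0, hΔ0', hl0, hc0, hm0⟩ := h00
    have hΔ0p : 0 < Δ i₀ := lt_of_lt_of_le hD hΔ0
    have hne : Δ i₀ ≠ 0 := hΔ0p.ne'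
    have hE0 : 4 * l i₀ ^ 3 + c i₀ ^ 2 ≠ 0 := by
      intro h0
      have h1 := disc_dep hτ0 hDep0
      rw [h0, mul_zero] at h1
      exact hz0 (by exact_mod_cast h1)
    refine clus2 J (fun j => (((p i₀ * s j - q i₀ * r j : ℤ) : ℝ) +
        ω i₀ * ((r i₀ * s j - s i₀ * r j : ℤ) : ℝ)) * τ j / τ i₀)
      (fun j => ((r i₀ * s j - s i₀ * r j : ℤ) : ℝ) * τ i₀ * τ j) (fun j => Δ j / Δ i₀) l c
      hE0 hρ ?_ ?_
    · intro j hj
      obtain ⟨-, hτj, hDepj, hΔj, hΔj', hlj, hcj, hmj⟩ := hJ j hj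
      have hcomm : (z i₀).act (p i₀) (q i₀) (r i₀) (s i₀) = (z j).act (p j) (q j) (r j) (s j) := by
        rw [hact i₀ hi₀, hact j hj]
      obtain ⟨hd, hz⟩ := act_common (hdet i₀ hi₀) (hdet j hj) hcomm
      obtain ⟨hA, hB, hC⟩ := cov hτ0 hτj hDep0 hDepj hd hz rfl rfl
      refine ⟨?_, ?_, hlj, hcj, hmj, ?_, ?_, ?_⟩
      · rw [le_div_iff₀ hΔ0p]
        linarith
      · rw [div_le_iff₀ hΔ0p]
        linarith
      · rw [eq_div_iff hne]
        exact (mul_comm _ _).trans hA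
      · have e2 : (Δ j / Δ i₀) ^ 2 * l j = Δ j ^ 2 * l j / Δ i₀ ^ 2 := by
          rw [div_pow]
          ring
        rw [e2, eq_div_iff (pow_ne_zero 2 hne)]
        exact (mul_comm _ _).trans hB
      · have e3 : (Δ j / Δ i₀) ^ 3 * c j = Δ j ^ 3 * c j / Δ i₀ ^ 3 := by
          rw [div_pow]
          ring
        rw [e3, eq_div_iff (pow_ne_zero 3 hne)]
        exact (mul_comm _ _).trans hC
    · intro j hj k hk hjk
      obtain ⟨-, hτj, -⟩ := hJ j hj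
      obtain ⟨-, hτk, -⟩ := hJ k hk
      by_contra hcon
      rw [not_lt] at hcon
      refine hs j hj k hk hjk (close_of_common (hdet j hj) (hdet k hk) ?_ ?_)
      · rw [hact j hj, hact k hk]
      · have hd0 : ((p i₀ : ℤ) : ℝ) * s i₀ - q i₀ * r i₀ = 1 := by exact_mod_cast hdet i₀ hi₀
        refine le_trans (le_of_eq ?_) hcon
        have hτne : τ i₀ ≠ 0 := hτ0.ne'
        have key : (((p i₀ * s j - q i₀ * r j : ℤ) : ℝ) +
              ω i₀ * ((r i₀ * s j - s i₀ * r j : ℤ) : ℝ)) * τ j / τ i₀ *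
            (((r i₀ * s k - s i₀ * r k : ℤ) : ℝ) * τ i₀ * τ k) -
            (((p i₀ * s k - q i₀ * r k : ℤ) : ℝ) +
              ω i₀ * ((r i₀ * s k - s i₀ * r k : ℤ) : ℝ)) * τ k / τ i₀ *
            (((r i₀ * s j - s i₀ * r j : ℤ) : ℝ) * τ i₀ * τ j) =
            ((r j : ℝ) * s k - s j * r k) * τ j * τ k := by
          have h2 : (((p i₀ * s j - q i₀ * r j : ℤ) : ℝ) +
              ω i₀ * ((r i₀ * s j - s i₀ * r j : ℤ) : ℝ)) * τ j / τ i₀ *
            (((r i₀ * s k - s i₀ * r k : ℤ) : ℝ) * τ i₀ * τ k) -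
            (((p i₀ * s k - q i₀ * r k : ℤ) : ℝ) +
              ω i₀ * ((r i₀ * s k - s i₀ * r k : ℤ) : ℝ)) * τ k / τ i₀ *
            (((r i₀ * s j - s i₀ * r j : ℤ) : ℝ) * τ i₀ * τ j) =
            (((p i₀ : ℤ) : ℝ) * s i₀ - q i₀ * r i₀) *
              (((r j : ℝ) * s k - s j * r k) * τ j * τ k) := by
            push_cast
            field_simp
            ring
          rw [h2, hd0, one_mul]
        rw [key, abs_mul, abs_mul, abs_of_pos hτj, abs_of_pos hτk]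

end Pool.Agent.Work.MP_f2148a_nt.M56.C
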