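import Pool.Agent.Work.MP_f2148a_nt.M56.C.Red
import Pool.Agent.Work.MP_f2148a_nt.M56.C.Coef

/-!
MODULE C/Key (S). The reduction with a dyadic parameter.

`reduce ω τ` gives `p q r s T`; `T⁴ ≥ 3/4` gives `T > 1/2` (`T ≤ 1/2` would give `T⁴ ≤ 1/16`), so `1 ≤ 2T` and
`exists_nat_pow_near` gives `n` with `2^n ≤ 2T < 2^(n+1)`. Put `T₀ = 2^n/2`: `T₀ ≤ T ≤ 2T₀`. `coef_bound` (with `|Δ| = Δ ≤ 2D`):
`44D/T³ ≤ 44D/T₀³`, `44D/T ≤ 44D/T₀`, `44DT ≤ 88DT₀`, `44DT³ ≤ 352DT₀³`. `dir_bound`: `|τ r| T₀ ≤ T₀/T ≤ 1`,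
`|τ s|/T₀ ≤ 2T/T₀ ≤ 4`.
-/

namespace Pool.Agent.Work.MP_f2148a_nt.M56.C

open Pool.Agent.Work.MP_f2148a_nt.M56

theorem key {z : Cub} {ω τ Δ l c D : ℝ} (hD : 1 / 8 ≤ D) (hτ : 0 < τ) (h : Dep z ω τ Δ l c)
    (h1 : D ≤ Δ) (h2 : Δ ≤ 2 * D) (hl : |l| ≤ 1) (hc : |c| ≤ 1) :
    ∃ (n : ℕ) (p q r s : ℤ), p * s - q * r = 1 ∧
      |((z.act p q r s).a : ℝ)| ≤ 400 * D / (2 ^ n / 2) ^ 3 ∧
      |((z.act p q r s).b : ℝ)| ≤ 400 * D / (2 ^ n / 2) ∧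
      |((z.act p q r s).c : ℝ)| ≤ 400 * D * (2 ^ n / 2) ∧
      |((z.act p q r s).d : ℝ)| ≤ 400 * D * (2 ^ n / 2) ^ 3 ∧
      |τ * (r : ℝ) * (2 ^ n / 2)| ≤ 4 ∧ |τ * (s : ℝ) / (2 ^ n / 2)| ≤ 4 := by
  obtain ⟨p, q, r, s, T, hdet, hT, hT4, e1, e2⟩ := reduce ω τ hτ
  have hT2 : 1 / 2 ≤ T := by
    by_contra h0
    have h3 : T ≤ 1 / 2 := by linarith
    have h4 : T ^ 4 ≤ (1 / 2) ^ 4 := pow_le_pow_left₀ hT.le h3 4
    norm_num at h4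
    linarith
  obtain ⟨n, hn1, hn2⟩ := exists_nat_pow_near (x := 2 * T) (y := 2) (by linarith) (by norm_num)
  obtain ⟨S, hS⟩ : ∃ S : ℝ, S = 2 ^ n / 2 := ⟨_, rfl⟩
  have hS0 : 0 < S := by rw [hS]; positivity
  have hS1 : S ≤ T := by rw [hS]; linarith
  have hS2 : T ≤ 2 * S := by
    rw [pow_succ] at hn2
    rw [hS]
    linarith
  have hΔ : |Δ| ≤ 2 * D := by
    rw [abs_of_nonneg (by linarith)]
    exact h2
  obtain ⟨a1, a2, a3, a4⟩ := coef_bound hτ h hΔ hl hc hT e1 e2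
  obtain ⟨b1, b2⟩ := dir_bound hτ hT e1 e2
  have hD0 : 0 < D := by linarith
  refine ⟨n, p, q, r, s, hdet, ?_⟩
  rw [← hS]
  refine ⟨?_, ?_, ?_, ?_, ?_, ?_⟩
  · refine a1.trans ?_
    refine div_le_div₀ (by positivity) (by linarith) (by positivity) (pow_le_pow_left₀ hS0.le hS1 3)
  · refine a2.trans ?_
    exact div_le_div₀ (by positivity) (by linarith) hS0 hS1
  · refine a3.trans ?_
    have : D * T ≤ D * (2 * S) := mul_le_mul_of_nonneg_left hS2 hD0.le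
    have h5 : 0 ≤ D * S := by positivity
    linarith
  · refine a4.trans ?_
    have h4 : T ^ 3 ≤ (2 * S) ^ 3 := pow_le_pow_left₀ hT.le hS2 3
    have h5 : D * T ^ 3 ≤ D * (2 * S) ^ 3 := mul_le_mul_of_nonneg_left h4 hD0.le
    have h6 : 0 ≤ D * S ^ 3 := by positivity
    have h7 : D * (2 * S) ^ 3 = 8 * (D * S ^ 3) := by ring
    linarith
  · rw [abs_mul, abs_of_pos hS0]
    calc |τ * (r : ℝ)| * S ≤ 1 / T * T := mul_le_mul b1 hS1 hS0.le (by positivity)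
      _ = 1 := by field_simp
      _ ≤ 4 := by norm_num
  · rw [abs_div, abs_of_pos hS0, div_le_iff₀ hS0]
    linarith

end Pool.Agent.Work.MP_f2148a_nt.M56.C
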