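import Mathlib

/-!
MODULE C/Pack (S-M). Packing lemmas on a line and for directions (Mathlib only).

`card_sep`: `i ↦ ⌊t i / δ⌋` is injective on `J` (equal floors give `|t i - t j| < δ`) and takes values in
`Finset.Icc ⌊-L/δ⌋ ⌊L/δ⌋`, whose cardinality is `⌊L/δ⌋ - ⌊-L/δ⌋ + 1 ≤ 2L/δ + 2`.
`card_dir`: split `J` into `|y i| ≤ |x i|` and `|x i| < |y i|`. On the first part put `t i = y i / x i`, `|t i| ≤ 1`,
`y i = x i * t i` (also if `x i = 0`, then `y i = 0`), so `|x i * y j - x j * y i| = |x i| |x j| |t j - t i| ≤ B² |t i - t j|` and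
the `t i` are `ρ/B²`-separated: at most `2B²/ρ + 2` indices by `card_sep` with `L = 1`. The second part in the same way.
-/

namespace Pool.Agent.Work.MP_f2148a_nt.M56.C

theorem card_sep {ι : Type} (J : Finset ι) (t : ι → ℝ) {L δ : ℝ} (hL : 0 ≤ L) (hδ : 0 < δ)
    (h : ∀ i ∈ J, |t i| ≤ L) (hs : ∀ i ∈ J, ∀ j ∈ J, i ≠ j → δ ≤ |t i - t j|) :
    (J.card : ℝ) ≤ 2 * L / δ + 2 := by
  have hinj : Set.InjOn (fun i => ⌊t i / δ⌋) (J : Set ι) := by
    intro i hi j hj hij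
    by_contra hne
    have h1 := hs i hi j hj hne
    have h2 : |t i / δ - t j / δ| < 1 := Int.abs_sub_lt_one_of_floor_eq_floor hij
    rw [← sub_div, abs_div, abs_of_pos hδ, div_lt_one hδ] at h2
    linarith
  have hmaps : ∀ i ∈ J, (fun i => ⌊t i / δ⌋) i ∈ Finset.Icc ⌊-L / δ⌋ ⌊L / δ⌋ := by
    intro i hi
    have h1 := abs_le.mp (h i hi)
    simp only [Finset.mem_Icc]
    constructor
    · exact Int.floor_le_floor (div_le_div_of_nonneg_right h1.1 hδ.le)
    · exact Int.floor_le_floor (div_le_div_of_nonneg_right h1.2 hδ.le)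
  have hc := Finset.card_le_card_of_injOn _ hmaps hinj
  rw [Int.card_Icc] at hc
  have h3 : ⌊-L / δ⌋ ≤ ⌊L / δ⌋ := by
    apply Int.floor_le_floor
    exact div_le_div_of_nonneg_right (by linarith) hδ.le
  have h4 : ((⌊L / δ⌋ + 1 - ⌊-L / δ⌋).toNat : ℝ) = (⌊L / δ⌋ : ℝ) + 1 - (⌊-L / δ⌋ : ℝ) := by
    have : (((⌊L / δ⌋ + 1 - ⌊-L / δ⌋).toNat : ℤ)) = ⌊L / δ⌋ + 1 - ⌊-L / δ⌋ :=
      Int.toNat_of_nonneg (by omega)
    exact_mod_cast this
  have h5 : (J.card : ℝ) ≤ ((⌊L / δ⌋ + 1 - ⌊-L / δ⌋).toNat : ℝ) := by exact_mod_cast hc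
  have h6 := Int.floor_le (L / δ)
  have h7 := Int.lt_floor_add_one (-L / δ)
  have h8 : -L / δ = -(L / δ) := neg_div δ L
  have h9 : 2 * L / δ = L / δ + L / δ := by ring
  rw [h4] at h5
  rw [h8] at h7
  rw [h8] at h5
  rw [h9]
  linarith

private theorem part {ι : Type} (J : Finset ι) (x y : ι → ℝ) {B ρ : ℝ} (hB : 0 < B) (hρ : 0 < ρ)
    (hx : ∀ i ∈ J, |x i| ≤ B) (hxy : ∀ i ∈ J, |y i| ≤ |x i|)
    (hs : ∀ i ∈ J, ∀ j ∈ J, i ≠ j → ρ < |x i * y j - x j * y i|) :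
    (J.card : ℝ) ≤ 2 * B ^ 2 / ρ + 2 := by
  have hB2 : 0 < B ^ 2 := by positivity
  have key : ∀ i ∈ J, y i = x i * (y i / x i) := by
    intro i hi
    by_cases h0 : x i = 0
    · have := hxy i hi
      rw [h0, abs_zero] at this
      have h1 : y i = 0 := abs_eq_zero.mp (le_antisymm this (abs_nonneg _))
      rw [h0, h1]; simp
    · field_simp
  have h1 : ∀ i ∈ J, |y i / x i| ≤ 1 := by
    intro i hi
    rw [abs_div]
    by_cases h0 : x i = 0
    · rw [h0]; simp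
    · rw [div_le_one (abs_pos.mpr h0)]; exact hxy i hi
  have h2 : ∀ i ∈ J, ∀ j ∈ J, i ≠ j → ρ / B ^ 2 ≤ |y i / x i - y j / x j| := by
    intro i hi j hj hij
    have h3 := hs i hi j hj hij
    have h4 : x i * y j - x j * y i = x i * x j * (y j / x j - y i / x i) := by
      have e1 := key i hi
      have e2 := key j hj
      calc x i * y j - x j * y i = x i * (x j * (y j / x j)) - x j * (x i * (y i / x i)) := by
            rw [← e1, ← e2]
        _ = _ := by ring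
    rw [h4, abs_mul, abs_mul] at h3
    have h5 : |x i| * |x j| ≤ B ^ 2 := by
      have := mul_le_mul (hx i hi) (hx j hj) (abs_nonneg _) hB.le
      nlinarith [this]
    have h6 : |x i| * |x j| * |y j / x j - y i / x i| ≤ B ^ 2 * |y j / x j - y i / x i| :=
      mul_le_mul_of_nonneg_right h5 (abs_nonneg _)
    rw [div_le_iff₀ hB2, abs_sub_comm]
    nlinarith [h6, h3]
  have h3 := card_sep J (fun i => y i / x i) (L := 1) (δ := ρ / B ^ 2) zero_le_one (by positivity) h1 h2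
  have h4 : 2 * 1 / (ρ / B ^ 2) = 2 * B ^ 2 / ρ := by
    field_simp
  rw [h4] at h3
  exact h3

theorem card_dir {ι : Type} (J : Finset ι) (x y : ι → ℝ) {B ρ : ℝ} (hB : 0 < B) (hρ : 0 < ρ)
    (hx : ∀ i ∈ J, |x i| ≤ B) (hy : ∀ i ∈ J, |y i| ≤ B)
    (hs : ∀ i ∈ J, ∀ j ∈ J, i ≠ j → ρ < |x i * y j - x j * y i|) :
    (J.card : ℝ) ≤ 4 * B ^ 2 / ρ + 4 := by
  classical
  have h1 := part (J.filter (fun i => |y i| ≤ |x i|)) x y hB hρ
    (fun i hi => hx i (Finset.mem_filter.mp hi).1) (fun i hi => (Finset.mem_filter.mp hi).2)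
    (fun i hi j hj hij => hs i (Finset.mem_filter.mp hi).1 j (Finset.mem_filter.mp hj).1 hij)
  have h2 := part (J.filter (fun i => ¬ |y i| ≤ |x i|)) y x hB hρ
    (fun i hi => hy i (Finset.mem_filter.mp hi).1)
    (fun i hi => (lt_of_not_ge (Finset.mem_filter.mp hi).2).le)
    (fun i hi j hj hij => by
      have := hs i (Finset.mem_filter.mp hi).1 j (Finset.mem_filter.mp hj).1 hij
      have e : y i * x j - y j * x i = -(x i * y j - x j * y i) := by ring
      rw [e, abs_neg]; exact this)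
  have h3 := Finset.card_filter_add_card_filter_not (s := J) (fun i => |y i| ≤ |x i|)
  have h4 : ((J.filter (fun i => |y i| ≤ |x i|)).card : ℝ) + ((J.filter (fun i => ¬ |y i| ≤ |x i|)).card : ℝ)
      = (J.card : ℝ) := by exact_mod_cast h3
  have h5 : 4 * B ^ 2 / ρ = 2 * B ^ 2 / ρ + 2 * B ^ 2 / ρ := by ring
  rw [h5]
  linarith

end Pool.Agent.Work.MP_f2148a_nt.M56.C
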