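import Pool.Agent.Work.MP_f2148a_nt.M56.Defs

/-!
MODULE C/Red (M). Gauss reduction of the lattice `{N(m,n)}`, `N(X,Y) = ((X+ωY)/τ, τY)`, in terms of Mathlib's fundamental domain.

Let `w = ω + i τ²` in the upper half plane. For real `X, Y`:
`((X+ωY)/τ)² + (τY)² = |X + w Y|² / Im w`. By `ModularGroup.exists_smul_mem_fd` there is `g = (α β; γ δ)` in `SL(2,ℤ)` with
`g • w = w'` in `𝒟`: `|Re w'| ≤ 1/2`, `1 ≤ |w'|²`. `Im w' = Im w / |γ w + δ|²` (`UpperHalfPlane.im_smul_eq_div_normSq` or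
`ModularGroup.im_smul_eq_div_normSq`). Put `R = Im w' > 0`, `T = √R`. Take `p = δ, r = γ, q = β, s = α`:
`p s - q r = δ α - β γ = 1`; `((p+ωr)/τ)² + (τr)² = |γ w + δ|² / Im w = 1/R`;
`((q+ωs)/τ)² + (τs)² = |α w + β|² / Im w = |w'|² |γ w + δ|² / Im w = |w'|² / R ≤ (1/4 + R²)/R ≤ (4/3) R` because
`R² ≥ 1 - 1/4 = 3/4`.
-/

namespace Pool.Agent.Work.MP_f2148a_nt.M56.C

open Pool.Agent.Work.MP_f2148a_nt.M56

theorem reduce (ω τ : ℝ) (hτ : 0 < τ) : ∃ (p q r s : ℤ) (T : ℝ), p * s - q * r = 1 ∧ 0 < T ∧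
    3 / 4 ≤ T ^ 4 ∧ (((p : ℝ) + ω * r) / τ) ^ 2 + (τ * r) ^ 2 = 1 / T ^ 2 ∧
    (((q : ℝ) + ω * s) / τ) ^ 2 + (τ * s) ^ 2 ≤ 4 / 3 * T ^ 2 := by
  have hτ2 : 0 < τ ^ 2 := by positivity
  set w : UpperHalfPlane := ⟨⟨ω, τ ^ 2⟩, hτ2⟩ with hw
  have hwre : (w : ℂ).re = ω := rfl
  have hwim : (w : ℂ).im = τ ^ 2 := rfl
  obtain ⟨g, hg⟩ := ModularGroup.exists_smul_mem_fd w
  have hdet : g 0 0 * g 1 1 - g 0 1 * g 1 0 = 1 := by
    have := g.det_coe
    rwa [Matrix.det_fin_two] at this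
  have happ := UpperHalfPlane.coe_specialLinearGroup_apply g w
  have h34 := ModularGroup.three_le_four_mul_im_sq_of_mem_fd hg
  have hre : |(g • w).re| ≤ 1 / 2 := hg.2
  set w' := g • w with hw'
  set a : ℤ := g 0 0
  set b : ℤ := g 0 1
  set c : ℤ := g 1 0
  set d : ℤ := g 1 1
  set R : ℝ := w'.im with hR
  have hRpos : 0 < R := w'.im_pos
  set u : ℝ := w'.re with hu
  have hw'e : (w' : ℂ) = ⟨u, R⟩ := rfl
  have hwe : (w : ℂ) = ⟨ω, τ ^ 2⟩ := rfl
  have hden : ((c : ℂ) * (w : ℂ) + (d : ℂ)) ≠ 0 := by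
    intro h
    have h2 := congrArg Complex.im h
    have h1 := congrArg Complex.re h
    rw [hwe] at h1 h2
    simp only [Complex.add_im, Complex.mul_im, Complex.intCast_re, Complex.intCast_im, Complex.zero_im,
      zero_mul, add_zero] at h2
    simp only [Complex.add_re, Complex.mul_re, Complex.intCast_re, Complex.intCast_im, Complex.zero_re,
      zero_mul, sub_zero] at h1
    have hc : (c : ℝ) = 0 := by
      rcases mul_eq_zero.mp h2 with h | h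
      · exact h
      · exact absurd h hτ2.ne'
    rw [hc, zero_mul, zero_add] at h1
    have hc' : c = 0 := by exact_mod_cast hc
    have hd' : d = 0 := by exact_mod_cast h1
    rw [hc', hd'] at hdet
    simp at hdet
  have hmul : (w' : ℂ) * ((c : ℂ) * (w : ℂ) + (d : ℂ)) = (a : ℂ) * (w : ℂ) + (b : ℂ) := by
    rw [happ]
    have : ((algebraMap ℤ ℝ (g 1 0) : ℝ) : ℂ) * (w : ℂ) + ((algebraMap ℤ ℝ (g 1 1) : ℝ) : ℂ) =
        (c : ℂ) * (w : ℂ) + (d : ℂ) := by simp [c, d]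
    rw [this, div_mul_cancel₀ _ hden]
    simp [a, b]
  rw [hw'e, hwe] at hmul
  have e1 := congrArg Complex.re hmul
  have e2 := congrArg Complex.im hmul
  simp only [Complex.mul_re, Complex.mul_im, Complex.add_re, Complex.add_im, Complex.intCast_re,
    Complex.intCast_im, zero_mul, sub_zero, add_zero] at e1 e2
  -- e1 : u * (c ω + d) - R * (c τ²) = a ω + b ; e2 : u * (c τ²) + R * (c ω + d) = a τ²
  have hdetR : (a : ℝ) * d - b * c = 1 := by exact_mod_cast hdet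
  set N : ℝ := (c * ω + d) ^ 2 + (c * τ ^ 2) ^ 2 with hN
  have hRN : R * N = τ ^ 2 := by
    have : R * N = (c * ω + d) * (a * τ ^ 2) - (c * τ ^ 2) * (a * ω + b) := by
      rw [hN, ← e1, ← e2]; ring
    rw [this]
    linear_combination (τ ^ 2) * hdetR
  have hNpos : 0 < N := by
    by_contra h
    push Not at h
    have : R * N ≤ 0 := mul_nonpos_of_nonneg_of_nonpos hRpos.le h
    linarith
  have hM : (a * ω + b) ^ 2 + (a * τ ^ 2) ^ 2 = (u ^ 2 + R ^ 2) * N := by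
    rw [hN, ← e1, ← e2]; ring
  refine ⟨d, b, c, a, √R, by rw [← hdet]; ring, Real.sqrt_pos.mpr hRpos, ?_, ?_, ?_⟩
  · have : √R ^ 4 = R ^ 2 := by
      have h := Real.sq_sqrt hRpos.le
      calc √R ^ 4 = (√R ^ 2) ^ 2 := by ring
        _ = R ^ 2 := by rw [h]
    rw [this]
    linarith
  · rw [Real.sq_sqrt hRpos.le]
    have : (((d : ℝ) + ω * c) / τ) ^ 2 + (τ * c) ^ 2 = N / τ ^ 2 := by
      rw [hN]; field_simp; ring
    rw [this, ← hRN]
    field_simp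
  · rw [Real.sq_sqrt hRpos.le]
    have : (((b : ℝ) + ω * a) / τ) ^ 2 + (τ * a) ^ 2 = ((a * ω + b) ^ 2 + (a * τ ^ 2) ^ 2) / τ ^ 2 := by
      field_simp; ring
    rw [this, hM, ← hRN]
    have h1 : (u ^ 2 + R ^ 2) * N / (R * N) = (u ^ 2 + R ^ 2) / R := by
      field_simp
    rw [h1, div_le_iff₀ hRpos]
    have h2 : u ^ 2 ≤ 1 / 4 := by
      have := abs_le.mp hre
      nlinarith
    nlinarith

end Pool.Agent.Work.MP_f2148a_nt.M56.C
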