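import Pool.Agent.Work.MP_f2148a_nt.M56.Defs

/-!
MODULE C/Red0 (M). Normalised forms without `X³` and with bounded discriminant.

`a = 0`: `disc = b²c² - 4b³d = b²(c² - 4bd)`. Since `disc ≠ 0`: `b² ≤ |disc| ≤ X := 2160 D⁴`, and
`|c² - 4bd| ≤ X/b²`, i.e. `|d - c²/(4b)| ≤ X/(4|b|³)`.
`𝒦` = union over integers `b ≠ 0`, `|b| ≤ m := ⌊√X⌋₊` and `0 ≤ c < 2|b|` of the forms `(0,b,c,d)`,
`d ∈ Icc ⌈u - v⌉ ⌊u + v⌋`, `u = c²/(4b)`, `v = X/(4|b|³)`; this interval has at most `2v + 1` integers.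
Number: `∑_b 2|b| (X/(2|b|³) + 1) = 2 ∑_{b=1}^{m} (X/b² + 2b) ≤ 2 (2X + m(m+1)) ≤ 4X + 2X + 2√X ≤ C D⁴`
(`∑ 1/b² ≤ 2`: by induction `∑_{b ≤ m} 1/b² ≤ 2 - 1/m`; `√X ≤ X` as `X ≥ 2160/4096`... use `√X ≤ 1 + X`, `1 ≤ 4096 D⁴`).
`Finset.card_biUnion_le` or `Finset.card_sigma`.
-/

namespace Pool.Agent.Work.MP_f2148a_nt.M56.C

open Pool.Agent.Work.MP_f2148a_nt.M56

/-- the forms with given `b` -/
private noncomputable def Kb (X : ℝ) (b : ℤ) : Finset Cub :=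
  (Finset.Ico 0 (2 * |b|)).biUnion fun c =>
    (Finset.Icc ⌈(c : ℝ) ^ 2 / (4 * b) - X / (4 * |(b : ℝ)| ^ 3)⌉
      ⌊(c : ℝ) ^ 2 / (4 * b) + X / (4 * |(b : ℝ)| ^ 3)⌋).image fun d => ⟨0, b, c, d⟩

private theorem card_Icc_le (u v : ℝ) (hv : 0 ≤ v) :
    ((Finset.Icc ⌈u - v⌉ ⌊u + v⌋).card : ℝ) ≤ 2 * v + 1 := by
  rw [Int.card_Icc]
  have h1 : (((⌊u + v⌋ + 1 - ⌈u - v⌉).toNat : ℕ) : ℝ) =
      (((⌊u + v⌋ + 1 - ⌈u - v⌉).toNat : ℤ) : ℝ) := by push_cast; rfl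
  rw [h1, Int.toNat_eq_max, Int.cast_max]
  refine max_le ?_ ?_
  · push_cast
    have h2 := Int.floor_le (u + v)
    have h3 := Int.le_ceil (u - v)
    linarith
  · push_cast
    linarith

private theorem card_Kb {X : ℝ} (hX : 0 ≤ X) {b : ℤ} (hb : b ≠ 0) :
    ((Kb X b).card : ℝ) ≤ X / (b : ℝ) ^ 2 + 2 * |(b : ℝ)| := by
  have hb0 : 0 < |(b : ℝ)| := abs_pos.2 (by exact_mod_cast hb)
  have h1 : ((Kb X b).card : ℝ) ≤ ∑ _c ∈ Finset.Ico 0 (2 * |b|),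
      (2 * (X / (4 * |(b : ℝ)| ^ 3)) + 1) := by
    have h2 : (Kb X b).card ≤ ∑ c ∈ Finset.Ico 0 (2 * |b|),
        (Finset.Icc ⌈(c : ℝ) ^ 2 / (4 * b) - X / (4 * |(b : ℝ)| ^ 3)⌉
          ⌊(c : ℝ) ^ 2 / (4 * b) + X / (4 * |(b : ℝ)| ^ 3)⌋).card :=
      Finset.card_biUnion_le.trans (Finset.sum_le_sum fun c _ => Finset.card_image_le)
    calc ((Kb X b).card : ℝ) ≤ ((∑ c ∈ Finset.Ico 0 (2 * |b|),
        (Finset.Icc ⌈(c : ℝ) ^ 2 / (4 * b) - X / (4 * |(b : ℝ)| ^ 3)⌉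
          ⌊(c : ℝ) ^ 2 / (4 * b) + X / (4 * |(b : ℝ)| ^ 3)⌋).card : ℕ) : ℝ) := by
          exact_mod_cast h2
      _ ≤ _ := by
          push_cast
          exact Finset.sum_le_sum fun c _ => card_Icc_le _ _ (by positivity)
  rw [Finset.sum_const, nsmul_eq_mul] at h1
  have h3 : ((Finset.Ico 0 (2 * |b|)).card : ℝ) = 2 * |(b : ℝ)| := by
    rw [Int.card_Ico]
    have h4 : (((2 * |b| - 0).toNat : ℕ) : ℝ) = (((2 * |b| - 0).toNat : ℤ) : ℝ) := by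
      push_cast; rfl
    rw [h4, Int.toNat_of_nonneg (by have := abs_nonneg b; omega)]
    push_cast
    ring
  rw [h3] at h1
  refine h1.trans (le_of_eq ?_)
  have h5 : (b : ℝ) ^ 2 = |(b : ℝ)| ^ 2 := (sq_abs _).symm
  rw [h5]
  field_simp
  ring

private theorem mem_Kb {X : ℝ} {w : Cub} (ha : w.a = 0) (hb : w.b ≠ 0) (hc : 0 ≤ w.c)
    (hc' : w.c < 2 * |w.b|) (hX : |(w.disc : ℝ)| ≤ X) : w ∈ Kb X w.b := by
  have hb0 : 0 < |(w.b : ℝ)| := abs_pos.2 (by exact_mod_cast hb)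
  have hbr : (w.b : ℝ) ≠ 0 := by exact_mod_cast hb
  have h1 : (w.disc : ℝ) = -(4 * (w.b : ℝ) ^ 3 * ((w.d : ℝ) - (w.c : ℝ) ^ 2 / (4 * w.b))) := by
    rw [Cub.disc, ha]
    push_cast
    field_simp
    ring
  have h2 : |(w.d : ℝ) - (w.c : ℝ) ^ 2 / (4 * w.b)| ≤ X / (4 * |(w.b : ℝ)| ^ 3) := by
    rw [le_div_iff₀ (by positivity)]
    rw [h1, abs_neg, abs_mul, abs_mul, abs_pow, abs_of_pos (by norm_num : (0 : ℝ) < 4)] at hX
    linarith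
  rw [abs_le] at h2
  refine Finset.mem_biUnion.2 ⟨w.c, Finset.mem_Ico.2 ⟨hc, hc'⟩, Finset.mem_image.2
    ⟨w.d, Finset.mem_Icc.2 ⟨Int.ceil_le.2 (by linarith), Int.le_floor.2 (by linarith)⟩, ?_⟩⟩
  ext
  · exact ha.symm
  · rfl
  · rfl
  · rfl

private theorem sum_bound {X : ℝ} (hX : 0 ≤ X) (m : ℕ) :
    ∑ j ∈ Finset.Icc 1 m, (X / (j : ℝ) ^ 2 + 2 * (j : ℝ)) ≤
      2 * X - X / m + (m : ℝ) * (m + 1) := by
  induction m with
  | zero => simp [hX]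
  | succ m ih =>
    rw [Finset.sum_Icc_succ_top (by omega)]
    rcases Nat.eq_zero_or_pos m with h0 | h0
    · subst h0
      simp
      linarith
    · have hm : (0 : ℝ) < m := by exact_mod_cast h0
      have h1 : X / ((m : ℝ) + 1) ^ 2 ≤ X / m - X / (m + 1) := by
        rw [div_sub_div _ _ hm.ne' (by positivity), div_le_div_iff₀ (by positivity) (by positivity)]
        nlinarith [mul_nonneg hX hm.le]
      push_cast
      nlinarith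

theorem forms_0 : ∃ C : ℝ, 0 < C ∧ ∀ D : ℝ, 1 / 8 ≤ D → ∃ 𝒦 : Finset Cub,
    (𝒦.card : ℝ) ≤ C * D ^ 4 ∧
    ∀ w : Cub, w.disc ≠ 0 → w.a = 0 → w.b ≠ 0 → 0 ≤ w.c → w.c < 2 * |w.b| →
      |(w.disc : ℝ)| ≤ 2160 * D ^ 4 → w ∈ 𝒦 := by
  refine ⟨30000, by norm_num, fun D hD => ?_⟩
  obtain ⟨X, hXD⟩ : ∃ X : ℝ, X = 2160 * D ^ 4 := ⟨_, rfl⟩
  have hD4 : (1 : ℝ) ≤ 4096 * D ^ 4 := by
    have h1 := pow_le_pow_left₀ (by norm_num : (0 : ℝ) ≤ 1 / 8) hD 4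
    norm_num at h1
    linarith
  have hX : 0 ≤ X := by rw [hXD]; positivity
  obtain ⟨m, hm⟩ : ∃ m : ℕ, m = ⌊√X⌋₊ := ⟨_, rfl⟩
  refine ⟨(Finset.Icc 1 m).biUnion fun j : ℕ => Kb X (j : ℤ) ∪ Kb X (-(j : ℤ)), ?_, ?_⟩
  · have h1 : ((((Finset.Icc 1 m).biUnion fun j : ℕ => Kb X (j : ℤ) ∪ Kb X (-(j : ℤ))).card : ℕ) :
        ℝ) ≤ ∑ j ∈ Finset.Icc 1 m, 2 * (X / (j : ℝ) ^ 2 + 2 * (j : ℝ)) := by
      refine le_trans (Nat.cast_le.2 Finset.card_biUnion_le) ?_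
      push_cast
      refine Finset.sum_le_sum fun j hj => ?_
      have hj1 := (Finset.mem_Icc.1 hj).1
      have h2 := card_Kb hX (b := (j : ℤ)) (by omega)
      have h3 := card_Kb hX (b := -(j : ℤ)) (by omega)
      push_cast at h2 h3
      rw [abs_neg, neg_sq, abs_of_nonneg (Nat.cast_nonneg j)] at h3
      rw [abs_of_nonneg (Nat.cast_nonneg j)] at h2
      have h4 : ((Kb X (j : ℤ) ∪ Kb X (-(j : ℤ))).card : ℝ) ≤
          ((Kb X (j : ℤ)).card : ℝ) + ((Kb X (-(j : ℤ))).card : ℝ) := by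
        exact_mod_cast Finset.card_union_le _ _
      linarith
    rw [← Finset.mul_sum] at h1
    have h2 := sum_bound hX m
    have h3 : (m : ℝ) ≤ √X := by
      rw [hm]
      exact Nat.floor_le (Real.sqrt_nonneg X)
    have h4 : (m : ℝ) * (m + 1) ≤ 2 * X + 1 := by
      have h5 : (m : ℝ) * m ≤ X := by
        calc (m : ℝ) * m ≤ √X * √X := mul_le_mul h3 h3 (Nat.cast_nonneg m) (Real.sqrt_nonneg X)
          _ = X := Real.mul_self_sqrt hX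
      have h6 : (m : ℝ) ≤ 1 + X := by nlinarith [sq_nonneg ((m : ℝ) - 1)]
      nlinarith
    have h5 : 0 ≤ X / m := by positivity
    calc _ ≤ 2 * (2 * X + (2 * X + 1)) := by linarith
      _ ≤ 30000 * D ^ 4 := by rw [hXD]; linarith
  · intro w hd ha hb hc hc' hw
    rw [← hXD] at hw
    have h1 := mem_Kb ha hb hc hc' hw
    have h2 : ((w.b.natAbs : ℕ) : ℝ) ≤ √X := by
      apply Real.le_sqrt_of_sq_le
      refine le_trans ?_ hw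
      have h3 : w.disc = w.b ^ 2 * (w.c ^ 2 - 4 * w.b * w.d) := by
        rw [Cub.disc, ha]
        ring
      have h4 : 1 ≤ |w.c ^ 2 - 4 * w.b * w.d| := by
        apply Int.one_le_abs
        intro h5
        rw [h5, mul_zero] at h3
        exact hd h3
      have h5 : ((w.b.natAbs : ℕ) : ℝ) ^ 2 = ((w.b ^ 2 : ℤ) : ℝ) := by
        rw [← Int.natAbs_sq, Int.cast_pow, Int.cast_natCast]
      rw [h5, h3, ← Int.cast_abs]
      have h6 : w.b ^ 2 ≤ |w.b ^ 2 * (w.c ^ 2 - 4 * w.b * w.d)| := by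
        rw [abs_mul, abs_of_nonneg (sq_nonneg w.b)]
        nlinarith [sq_nonneg w.b]
      exact_mod_cast h6
    have h3 : w.b.natAbs ∈ Finset.Icc 1 m := by
      rw [Finset.mem_Icc]
      exact ⟨Int.natAbs_pos.2 hb, by rw [hm]; exact Nat.le_floor h2⟩
    refine Finset.mem_biUnion.2 ⟨w.b.natAbs, h3, Finset.mem_union.2 ?_⟩
    rcases Int.natAbs_eq w.b with h4 | h4
    · left
      rw [← h4]
      exact h1
    · right
      rw [← h4]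
      exact h1

end Pool.Agent.Work.MP_f2148a_nt.M56.C
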