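import Pool.Agent.Work.MP_f2148a_nt.M56.C.Act
import Pool.Agent.Work.MP_f2148a_nt.M56.C.Pack
import Pool.Agent.Work.MP_f2148a_nt.M56.C.Cell
import Pool.Agent.Work.MP_f2148a_nt.M56.C.Key

/-!
MODULE C/SepII (M). Proof of `sep_II`.

Take `C` from `forms_II` and use the constant `65 C`. For `i ∈ J` choose `n i, p i, q i, r i, s i` by `key` and put
`κ i = (n i, (z i).act (p i) (q i) (r i) (s i)) ∈ 𝒦` (`forms_II`; the discriminant is `≠ 0` by `disc_act`).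
Fibre of `κ` over `(n,w)`: put `T₀ = 2^n/2`, `x i = τ i s i / T₀`, `y i = τ i r i T₀`: `|x i|, |y i| ≤ 4`. For `i ≠ j` in the fibre
`x i y j - x j y i = τ i τ j (s i r j - s j r i)`; if its absolute value were `≤ ρ`, then `close_of_common` (the two forms have the
common transform `w`) would give `Close ρ (z i) (τ i) (z j) (τ j)`. By `card_dir` (`B = 4`) the fibre has at most
`64/ρ + 4 ≤ 65/ρ` elements (`4 ≤ 1/(25ρ)`). Sum over `𝒦`: `Finset.card_eq_sum_card_fiberwise` (or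
`Finset.card_le_mul_card_image`) and `Finset.sum_le_card_nsmul`.
-/

namespace Pool.Agent.Work.MP_f2148a_nt.M56.C

open Pool.Agent.Work.MP_f2148a_nt.M56

theorem sep_II_main : ∃ C : ℝ, ∀ (D ρ : ℝ), 1 / 8 ≤ D → 0 < ρ → ρ ≤ 1 / 100 →
    ∀ (ι : Type) (J : Finset ι) (z : ι → Cub) (ω τ Δ l c : ι → ℝ),
      (∀ i ∈ J, (z i).disc ≠ 0 ∧ 0 < τ i ∧ Dep (z i) (ω i) (τ i) (Δ i) (l i) (c i) ∧
        D ≤ Δ i ∧ Δ i ≤ 2 * D ∧ |l i| ≤ 1 ∧ |c i| ≤ 1) →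
      (∀ i ∈ J, ∀ j ∈ J, i ≠ j → ¬ Close ρ (z i) (τ i) (z j) (τ j)) →
      (J.card : ℝ) ≤ C * D ^ 6 * (1 + Real.log (2 + D)) / ρ := by
  classical
  obtain ⟨C, hC, hforms⟩ := forms_II
  refine ⟨65 * C, ?_⟩
  intro D ρ hD hρ hρ1 ι J z ω τ Δ l c hJ hclose
  obtain ⟨K, hKcard, hK⟩ := hforms D hD
  have hex : ∀ i, ∃ v : ℕ × ℤ × ℤ × ℤ × ℤ, i ∈ J →
      (v.2.1 * v.2.2.2.2 - v.2.2.1 * v.2.2.2.1 = 1 ∧
      (v.1, (z i).act v.2.1 v.2.2.1 v.2.2.2.1 v.2.2.2.2) ∈ K ∧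
      |τ i * (v.2.2.2.1 : ℝ) * (2 ^ v.1 / 2)| ≤ 4 ∧
      |τ i * (v.2.2.2.2 : ℝ) / (2 ^ v.1 / 2)| ≤ 4) := by
    intro i
    by_cases hi : i ∈ J
    · obtain ⟨h0, hτ, hdep, hD1, hD2, hl, hc⟩ := hJ i hi
      obtain ⟨n, p, q, r, s, hdet, e1, e2, e3, e4, e5, e6⟩ := key hD hτ hdep hD1 hD2 hl hc
      refine ⟨(n, p, q, r, s), fun _ => ⟨hdet, ?_, e5, e6⟩⟩
      refine hK n _ ?_ e1 e2 e3 e4
      rw [disc_act, hdet]
      simpa using h0
    · exact ⟨(0, 0, 0, 0, 0), fun h => absurd h hi⟩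
  choose v hv using hex
  set κ : ι → ℕ × Cub := fun i =>
    ((v i).1, (z i).act (v i).2.1 (v i).2.2.1 (v i).2.2.2.1 (v i).2.2.2.2) with hκ
  have hmap : ∀ i ∈ J, κ i ∈ K := fun i hi => (hv i hi).2.1
  have hfib : ∀ b ∈ K, ((J.filter (fun i => κ i = b)).card : ℝ) ≤ 65 / ρ := by
    intro b _
    have h1 := card_dir (J.filter (fun i => κ i = b))
      (fun i => τ i * ((v i).2.2.2.2 : ℝ) / (2 ^ (v i).1 / 2))
      (fun i => τ i * ((v i).2.2.2.1 : ℝ) * (2 ^ (v i).1 / 2)) (B := 4) (ρ := ρ) (by norm_num) hρ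
      (fun i hi => (hv i (Finset.mem_filter.mp hi).1).2.2.2)
      (fun i hi => (hv i (Finset.mem_filter.mp hi).1).2.2.1) ?_
    · refine h1.trans ?_
      rw [show (4 : ℝ) * 4 ^ 2 / ρ + 4 = (64 + 4 * ρ) / ρ by field_simp; ring]
      exact div_le_div_of_nonneg_right (by linarith) hρ.le
    · intro i hi j hj hij
      obtain ⟨hiJ, hib⟩ := Finset.mem_filter.mp hi
      obtain ⟨hjJ, hjb⟩ := Finset.mem_filter.mp hj
      by_contra hcon
      rw [not_lt] at hcon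
      have hEq : κ i = κ j := hib.trans hjb.symm
      rw [hκ] at hEq
      obtain ⟨hn, hw⟩ := Prod.mk.inj hEq
      apply hclose i hiJ j hjJ hij
      refine close_of_common (hv i hiJ).1 (hv j hjJ).1 hw ?_
      refine le_trans (le_of_eq ?_) hcon
      have hτi := (hJ i hiJ).2.1
      have hτj := (hJ j hjJ).2.1
      have hT : (0 : ℝ) < 2 ^ (v j).1 / 2 := by positivity
      simp only [hn]
      have e : τ i * ((v i).2.2.2.2 : ℝ) / (2 ^ (v j).1 / 2) * (τ j * ((v j).2.2.2.1 : ℝ) * (2 ^ (v j).1 / 2))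
          - τ j * ((v j).2.2.2.2 : ℝ) / (2 ^ (v j).1 / 2) * (τ i * ((v i).2.2.2.1 : ℝ) * (2 ^ (v j).1 / 2))
          = -(((v i).2.2.2.1 : ℝ) * (v j).2.2.2.2 - (v i).2.2.2.2 * (v j).2.2.2.1) * τ i * τ j := by
        field_simp
        ring
      rw [e, abs_mul, abs_mul, abs_neg, abs_of_pos hτi, abs_of_pos hτj]
  have h1 : (J.card : ℝ) = ∑ b ∈ K, ((J.filter (fun i => κ i = b)).card : ℝ) := by
    exact_mod_cast Finset.card_eq_sum_card_fiberwise hmap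
  rw [h1]
  calc ∑ b ∈ K, ((J.filter (fun i => κ i = b)).card : ℝ) ≤ ∑ _b ∈ K, 65 / ρ := Finset.sum_le_sum hfib
    _ = (K.card : ℝ) * (65 / ρ) := by rw [Finset.sum_const, nsmul_eq_mul]
    _ ≤ (C * D ^ 6 * (1 + Real.log (2 + D))) * (65 / ρ) :=
        mul_le_mul_of_nonneg_right hKcard (by positivity)
    _ = 65 * C * D ^ 6 * (1 + Real.log (2 + D)) / ρ := by ring

end Pool.Agent.Work.MP_f2148a_nt.M56.C
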