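import Pool.Agent.Work.MP_f2148a_nt.M56.C.Cls2
import Pool.Agent.Work.MP_f2148a_nt.M56.C.Cell
import Pool.Agent.Work.MP_f2148a_nt.M56.C.Red0
import Pool.Agent.Work.MP_f2148a_nt.M56.C.Key

/-!
MODULE C/SepII4. Separated families of general type with `max (|l|, |c|) = 1`: at most `C D⁴ (1 + log (2+D)) / ρ` members.

The proof is that of `sep_I` with `cls2` instead of `cls`: every fibre has at most `1200/ρ + 12 ≤ 1201/ρ` elements.
-/

namespace Pool.Agent.Work.MP_f2148a_nt.M56.C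

open Pool.Agent.Work.MP_f2148a_nt.M56

theorem sep_II4_main : ∃ C : ℝ, ∀ (D ρ : ℝ), 1 / 8 ≤ D → 0 < ρ → ρ ≤ 1 / 100 →
    ∀ (ι : Type) (J : Finset ι) (z : ι → Cub) (ω τ Δ l c : ι → ℝ),
      (∀ i ∈ J, (z i).disc ≠ 0 ∧ 0 < τ i ∧ Dep (z i) (ω i) (τ i) (Δ i) (l i) (c i) ∧
        D ≤ Δ i ∧ Δ i ≤ 2 * D ∧ |l i| ≤ 1 ∧ |c i| ≤ 1 ∧ (|l i| = 1 ∨ |c i| = 1)) →
      (∀ i ∈ J, ∀ j ∈ J, i ≠ j → ¬ Close ρ (z i) (τ i) (z j) (τ j)) →
      (J.card : ℝ) ≤ C * D ^ 4 * (1 + Real.log (2 + D)) / ρ := by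
  classical
  obtain ⟨C₁, hC₁, hf1⟩ := forms_I
  obtain ⟨C₀, hC₀, hf0⟩ := forms_0
  refine ⟨1201 * (C₁ + C₀), ?_⟩
  intro D ρ hD hρ0 hρ1 ι J z ω τ Δ l c hJ hs
  have hD0 : 0 < D := by linarith
  obtain ⟨K1, hK1, hk1⟩ := hf1 D hD
  obtain ⟨K0, hK0, hk0⟩ := hf0 D hD
  have hkey : ∀ i ∈ J, ∃ K : Cub, K ∈ K1 ∪ K0 ∧ ∃ p q r s : ℤ, p * s - q * r = 1 ∧
      (z i).act p q r s = K := by
    intro i hi
    obtain ⟨hz, hτ, hdep, h1, h2, hl, hc, -⟩ := hJ i hi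
    obtain ⟨n, p, q, r, s, hdet, ha, hb, hcc, hd, -, -⟩ := key hD hτ hdep h1 h2 hl hc
    obtain ⟨w, hw⟩ : ∃ w : Cub, w = (z i).act p q r s := ⟨_, rfl⟩
    rw [← hw] at ha hb hcc hd
    have hwd : w.disc = (z i).disc := by
      rw [hw, disc_act, hdet]
      ring
    by_cases h0 : w.a = 0
    · have hb0 : w.b ≠ 0 := by
        intro hb0
        apply hz
        rw [← hwd, Cub.disc, h0, hb0]
        ring
      obtain ⟨m, g1, g2, g3, g4⟩ := act_shift h0 hb0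
      have hdisc : (w.act 1 m 0 1).disc = (z i).disc := by
        rw [disc_act, hwd]
        ring
      refine ⟨w.act 1 m 0 1, Finset.mem_union_right _ (hk0 _ ?_ g1 ?_ g3 ?_ ?_), p, p * m + q, r, r * m + s,
        ?_, ?_⟩
      · rw [hdisc]
        exact hz
      · rw [g2]
        exact hb0
      · rw [g2]
        exact g4
      · rw [hdisc, disc_dep hτ hdep]
        have u1 : |l i ^ 3| ≤ 1 := by
          rw [abs_pow]
          exact pow_le_one₀ (abs_nonneg _) hl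
        have u2 : |c i ^ 2| ≤ 1 := by
          rw [abs_pow]
          exact pow_le_one₀ (abs_nonneg _) hc
        have u3 : |4 * l i ^ 3 + c i ^ 2| ≤ 5 := by
          calc |4 * l i ^ 3 + c i ^ 2| ≤ |4 * l i ^ 3| + |c i ^ 2| := abs_add_le _ _
            _ ≤ 5 := by
                rw [abs_mul, abs_of_pos (by norm_num : (0 : ℝ) < 4)]
                linarith
        have u4 : Δ i ^ 4 ≤ (2 * D) ^ 4 := pow_le_pow_left₀ (by linarith) h2 4
        have u5 : 0 ≤ Δ i ^ 4 := by positivity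
        rw [abs_mul, abs_mul, abs_of_nonneg u5, abs_of_neg (by norm_num : (-27 : ℝ) < 0)]
        calc - -27 * Δ i ^ 4 * |4 * l i ^ 3 + c i ^ 2| ≤ - -27 * (2 * D) ^ 4 * 5 :=
              mul_le_mul (mul_le_mul_of_nonneg_left u4 (by norm_num)) u3 (abs_nonneg _) (by positivity)
          _ = 2160 * D ^ 4 := by ring
      · linear_combination hdet
      · rw [hw, act_act]
        congr 1 <;> ring
    · exact ⟨w, Finset.mem_union_left _ (hk1 n w h0 ha hb hcc hd), p, q, r, s, hdet, hw.symm⟩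
  have : Nonempty Cub := ⟨⟨0, 0, 0, 0⟩⟩
  choose! κ hκ1 hκ2 using hkey
  have hfib : ∀ K ∈ K1 ∪ K0, ((J.filter (fun i => κ i = K)).card : ℝ) ≤ 1201 / ρ := by
    intro K _
    have h1 : ((J.filter (fun i => κ i = K)).card : ℝ) ≤ 1200 / ρ + 12 := by
      refine cls2 hD0 hρ0 (J.filter (fun i => κ i = K)) z ω τ Δ l c K ?_ ?_ ?_
      · intro i hi
        exact hJ i (Finset.mem_filter.1 hi).1
      · intro i hi
        obtain ⟨h1, h2⟩ := Finset.mem_filter.1 hi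
        rw [← h2]
        exact hκ2 i h1
      · intro i hi j hj
        exact hs i (Finset.mem_filter.1 hi).1 j (Finset.mem_filter.1 hj).1
    have h2 : 12 ≤ 1 / ρ := by
      rw [le_div_iff₀ hρ0]
      linarith
    have h3 : 1201 / ρ = 1200 / ρ + 1 / ρ := by
      rw [← add_div]
      norm_num
    linarith
  have hlog : 0 ≤ Real.log (2 + D) := Real.log_nonneg (by linarith)
  have hcard : (J.card : ℝ) = ∑ K ∈ K1 ∪ K0, ((J.filter (fun i => κ i = K)).card : ℝ) := by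
    rw [Finset.card_eq_sum_card_fiberwise (f := κ) (t := K1 ∪ K0) hκ1]
    push_cast
    rfl
  have hU : (((K1 ∪ K0).card : ℕ) : ℝ) ≤ (C₁ + C₀) * D ^ 4 * (1 + Real.log (2 + D)) := by
    have h1 : (((K1 ∪ K0).card : ℕ) : ℝ) ≤ K1.card + K0.card := by
      exact_mod_cast Finset.card_union_le K1 K0
    have h2 : C₀ * D ^ 4 ≤ C₀ * D ^ 4 * (1 + Real.log (2 + D)) :=
      le_mul_of_one_le_right (by positivity) (by linarith)
    have h3 : (C₁ + C₀) * D ^ 4 * (1 + Real.log (2 + D)) = C₁ * D ^ 4 * (1 + Real.log (2 + D)) +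
      C₀ * D ^ 4 * (1 + Real.log (2 + D)) := by ring
    linarith
  have hM : 0 ≤ 1201 / ρ := by positivity
  rw [hcard]
  calc ∑ K ∈ K1 ∪ K0, ((J.filter (fun i => κ i = K)).card : ℝ) ≤
        ∑ _K ∈ K1 ∪ K0, 1201 / ρ := Finset.sum_le_sum hfib
    _ = ((K1 ∪ K0).card : ℝ) * (1201 / ρ) := by
        rw [Finset.sum_const, nsmul_eq_mul]
    _ ≤ (C₁ + C₀) * D ^ 4 * (1 + Real.log (2 + D)) * (1201 / ρ) :=
        mul_le_mul_of_nonneg_right hU hM
    _ = 1201 * (C₁ + C₀) * D ^ 4 * (1 + Real.log (2 + D)) / ρ := by ring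

end Pool.Agent.Work.MP_f2148a_nt.M56.C
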